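import Pool.Agent.Helper70K9.Cry.Mat

/-!
# Perfect matchings avoiding a set of pairs: a lower bound (lopsided local lemma)
-/

set_option autoImplicit false

namespace Pool.Agent.Helper70K9.Cry

open Finset

variable {V : Type} [Fintype V] [DecidableEq V]

/-- The image of a matching under a permutation of the vertices. -/
def conj (τ : Equiv.Perm V) (M : Mat V) : Mat V :=
  ⟨fun v => τ (M.1 (τ.symm v)), fun v => by simp [M.2.1], fun v h => by
    have h' : τ (M.1 (τ.symm v)) = v := h
    exact M.2.2 (τ.symm v) ((Equiv.eq_symm_apply τ).2 h')⟩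

omit [Fintype V] [DecidableEq V] in
lemma conj_val (τ : Equiv.Perm V) (M : Mat V) (v : V) : (conj τ M).1 v = τ (M.1 (τ.symm v)) := rfl

omit [Fintype V] [DecidableEq V] in
lemma conj_symm (τ : Equiv.Perm V) (M : Mat V) : conj τ.symm (conj τ M) = M := by
  refine Subtype.ext (funext fun v => ?_)
  rw [conj_val, conj_val]
  simp

omit [Fintype V] [DecidableEq V] in
lemma symm_conj (τ : Equiv.Perm V) (M : Mat V) : conj τ (conj τ.symm M) = M := by
  refine Subtype.ext (funext fun v => ?_)
  rw [conj_val, conj_val]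
  simp

omit [Fintype V] [DecidableEq V] in
lemma has_conj {τ : Equiv.Perm V} {M : Mat V} {e : Sym2 V} :
    Has (conj τ M) (e.map τ) ↔ Has M e := by
  induction e with
  | _ u v =>
    rw [Sym2.map_mk, has_mk, has_mk, conj_val]
    simp

lemma mem_cons_conj {τ : Equiv.Perm V} {M : Mat V} {Y F : Finset (Sym2 V)} :
    conj τ M ∈ cons (Y.image (Sym2.map τ)) (F.image (Sym2.map τ)) ↔ M ∈ cons Y F := by
  rw [mem_cons, mem_cons]
  simp only [forall_mem_image, has_conj]

lemma sum_conj (τ : Equiv.Perm V) (Y F : Finset (Sym2 V)) (φ : Mat V → ℝ) :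
    ∑ M ∈ cons Y F, φ (conj τ M) =
      ∑ M ∈ cons (Y.image (Sym2.map τ)) (F.image (Sym2.map τ)), φ M := by
  refine sum_bij' (fun M _ => conj τ M) (fun M _ => conj τ.symm M) ?_ ?_ ?_ ?_ ?_
  · intro M hM
    exact mem_cons_conj.2 hM
  · intro M hM
    rw [← symm_conj τ M] at hM
    exact mem_cons_conj.1 hM
  · intro M _
    exact conj_symm τ M
  · intro M _
    exact symm_conj τ M
  · intro M _
    rfl

/-- Switching. -/
lemma cnt_switch {Y E : Finset (Sym2 V)} {a b u : V} (hb : b ∈ unc Y)
    (hu : u ∈ unc Y) (hab : a ≠ b) (hau : a ≠ u) (hE : ∀ e ∈ E, a ∉ e ∧ b ∉ e) :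
    cnt (insert s(a, b) Y) E ≤ cnt (insert s(a, u) Y) E := by
  unfold cnt
  refine Nat.cast_le.2 (card_le_card_of_injOn (conj (Equiv.swap b u)) ?_ ?_)
  · intro M hM
    rw [mem_coe, mem_cons] at hM ⊢
    obtain ⟨h1, h2⟩ := hM
    have hMab : M.1 a = b := has_mk.1 (h1 _ (mem_insert_self _ _))
    have key : ∀ e, Has (conj (Equiv.swap b u) M) e ↔ Has M (e.map (Equiv.swap b u)) := by
      intro e
      have h1 : (e.map (Equiv.swap b u)).map (Equiv.swap b u) = e := by
        rw [Sym2.map_map]
        have : (⇑(Equiv.swap b u) ∘ ⇑(Equiv.swap b u)) = id := by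
          funext x
          simp
        rw [this, Sym2.map_id, id]
      have h2 := has_conj (τ := Equiv.swap b u) (M := M) (e := e.map (Equiv.swap b u))
      rwa [h1] at h2
    have hfix : ∀ e : Sym2 V, b ∉ e → u ∉ e → e.map (Equiv.swap b u) = e := by
      intro e hb' hu'
      have h1 : e.map (Equiv.swap b u) = e.map id :=
        Sym2.map_congr fun x hx => Equiv.swap_apply_of_ne_of_ne
          (fun h => hb' (h ▸ hx)) (fun h => hu' (h ▸ hx))
      rw [h1, Sym2.map_id, id]
    constructor
    · intro e he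
      rw [mem_insert] at he
      rcases he with rfl | he
      · rw [has_mk, conj_val, Equiv.symm_swap, Equiv.swap_apply_of_ne_of_ne hab hau, hMab,
          Equiv.swap_apply_left]
      · rw [key, hfix e (mem_unc.1 hb e he) (mem_unc.1 hu e he)]
        exact h1 e (mem_insert_of_mem he)
    · intro e he hcon
      rw [key] at hcon
      by_cases hue : u ∈ e
      · obtain ⟨w, rfl⟩ := Sym2.mem_iff_exists.1 hue
        rw [Sym2.map_mk, Equiv.swap_apply_right, Sym2.eq_swap, has_mk] at hcon
        -- the partner of `b` is `a`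
        have hba : M.1 b = a := by rw [← hMab, M.2.1]
        have h3 : M.1 (M.1 (Equiv.swap b u w)) = M.1 b := by rw [hcon]
        rw [M.2.1, hba] at h3
        have h4 : w = a := by
          have := congrArg (Equiv.swap b u) h3
          rwa [Equiv.swap_apply_self, Equiv.swap_apply_of_ne_of_ne hab hau] at this
        exact (hE _ he).1 (h4 ▸ Sym2.mem_mk_right _ _)
      · rw [hfix e (hE e he).2 hue] at hcon
        exact h2 e he hcon
  · intro M _ N _ h
    have := congrArg (conj (Equiv.swap b u).symm) h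
    rwa [conj_symm, conj_symm] at this

lemma cnt_pair_le {Y E : Finset (Sym2 V)} {a b : V} (ha : a ∈ unc Y) (hb : b ∈ unc Y)
    (hab : a ≠ b) (hE : ∀ e ∈ E, a ∉ e ∧ b ∉ e) :
    ((unc Y).card - 1 : ℝ) * cnt (insert s(a, b) Y) E ≤ cnt Y E := by
  rw [cnt_split (F := E) ha]
  have h1 : ((unc Y).erase a).filter (fun u => s(a, u) ∉ E) = (unc Y).erase a := by
    rw [filter_true_of_mem]
    intro u _ h
    exact (hE _ h).1 (Sym2.mem_mk_left _ _)
  rw [h1]
  have h2 : (((unc Y).erase a).card : ℝ) = (unc Y).card - 1 := by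
    have := card_erase_add_one ha
    have h3 : (((unc Y).erase a).card : ℝ) + 1 = (unc Y).card := by exact_mod_cast this
    linarith
  rw [← h2, ← nsmul_eq_mul, ← sum_const]
  refine sum_le_sum fun u hu => ?_
  rw [mem_erase] at hu
  exact cnt_switch hb hu.2 hab hu.1.symm hE

lemma cnt_insert_avoid (Y E : Finset (Sym2 V)) (e : Sym2 V) :
    cnt Y E = cnt (insert e Y) E + cnt Y (insert e E) := by
  classical
  unfold cnt
  rw [← Nat.cast_add, ← card_union_of_disjoint]
  · congr 2
    ext M
    rw [mem_union, mem_cons, mem_cons, mem_cons]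
    simp only [mem_insert, forall_eq_or_imp]
    tauto
  · rw [disjoint_left]
    intro M h1 h2
    rw [mem_cons] at h1 h2
    exact h2.2 e (mem_insert_self _ _) (h1.1 e (mem_insert_self _ _))

/-- **The local lemma.** -/
lemma lll {Y F : Finset (Sym2 V)} (hF : ∀ e ∈ F, ¬ e.IsDiag ∧ ∀ v ∈ e, v ∈ unc Y)
    {d : ℕ} (hd : ∀ v, (F.filter (fun e => v ∈ e)).card ≤ d) {x : ℝ} (hx0 : 0 ≤ x) (hx1 : x ≤ 1)
    (hx : 1 ≤ ((unc Y).card - 1 : ℝ) * (x * (1 - x) ^ (2 * d))) :
    ∀ (k : ℕ) (E : Finset (Sym2 V)), E.card = k → E ⊆ F → ∀ e ∈ F, e ∉ E →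
      cnt (insert e Y) E ≤ x * cnt Y E := by
  intro k
  induction k using Nat.strong_induction_on with
  | _ k ih =>
    intro E hk hE e he heE
    obtain ⟨hdiag, hin⟩ := hF e he
    induction e with
    | _ a b =>
      rw [Sym2.mk_isDiag_iff] at hdiag
      have ha := hin a (Sym2.mem_mk_left _ _)
      have hb := hin b (Sym2.mem_mk_right _ _)
      set E1 := E.filter (fun f => a ∈ f ∨ b ∈ f) with hE1
      set E2 := E.filter (fun f => ¬ (a ∈ f ∨ b ∈ f)) with hE2
      have hunion : E2 ∪ E1 = E := by
        rw [union_comm]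
        exact filter_union_filter_not_eq _ _
      have hcard1 : E1.card ≤ 2 * d := by
        have h1 : E1 ⊆ F.filter (fun f => a ∈ f) ∪ F.filter (fun f => b ∈ f) := by
          intro f hf
          rw [hE1, mem_filter] at hf
          rw [mem_union, mem_filter, mem_filter]
          rcases hf.2 with h | h
          · exact Or.inl ⟨hE hf.1, h⟩
          · exact Or.inr ⟨hE hf.1, h⟩
        have h2 := (card_le_card h1).trans (card_union_le _ _)
        have h3 := hd a
        have h4 := hd b
        omega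
      -- adding the elements of `E1`
      have hadd : ∀ G : Finset (Sym2 V), G ⊆ E1 →
          (1 - x) ^ G.card * cnt Y E2 ≤ cnt Y (E2 ∪ G) := by
        intro G
        induction G using Finset.induction_on with
        | empty =>
          intro _
          simp
        | insert f G hfG ihG =>
          intro hsub
          have hf1 : f ∈ E1 := hsub (mem_insert_self _ _)
          have hG1 : G ⊆ E1 := fun g hg => hsub (mem_insert_of_mem hg)
          have hf2 : f ∈ E := by
            rw [hE1, mem_filter] at hf1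
            exact hf1.1
          have hf3 : f ∉ E2 ∪ G := by
            rw [mem_union, hE2, mem_filter]
            rintro (h | h)
            · rw [hE1, mem_filter] at hf1
              exact h.2 hf1.2
            · exact hfG h
          have hsubE : E2 ∪ G ⊆ E := by
            rw [← hunion]
            exact union_subset_union_right hG1
          have hlt : (E2 ∪ G).card < k := by
            rw [← hk]
            exact card_lt_card ⟨hsubE, fun h => hf3 (h hf2)⟩
          have h1 := ih _ hlt (E2 ∪ G) rfl (hsubE.trans hE) f (hE hf2) hf3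
          have h2 := cnt_insert_avoid Y (E2 ∪ G) f
          have h3 : E2 ∪ insert f G = insert f (E2 ∪ G) := by
            rw [union_insert]
          rw [h3, card_insert_of_notMem hfG, pow_succ]
          have h4 := ihG hG1
          have h5 : 0 ≤ 1 - x := by linarith
          nlinarith
      have h1 := hadd E1 (Subset.refl _)
      rw [hunion] at h1
      have h2 : cnt (insert s(a, b) Y) E ≤ cnt (insert s(a, b) Y) E2 :=
        cnt_anti (filter_subset _ _)
      have h3 := cnt_pair_le (E := E2) ha hb hdiag (by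
        intro f hf
        rw [hE2, mem_filter] at hf
        tauto)
      have h4 : (1 - x) ^ (2 * d) ≤ (1 - x) ^ E1.card :=
        pow_le_pow_of_le_one (by linarith) (by linarith) hcard1
      have h5 := cnt_nonneg Y E2
      have h6 := cnt_nonneg (insert s(a, b) Y) E2
      have h7 : (1 - x) ^ (2 * d) * cnt Y E2 ≤ cnt Y E :=
        (mul_le_mul_of_nonneg_right h4 h5).trans h1
      calc cnt (insert s(a, b) Y) E ≤ cnt (insert s(a, b) Y) E2 := h2
        _ = 1 * cnt (insert s(a, b) Y) E2 := (one_mul _).symm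
        _ ≤ (((unc Y).card - 1 : ℝ) * (x * (1 - x) ^ (2 * d))) * cnt (insert s(a, b) Y) E2 :=
            mul_le_mul_of_nonneg_right hx h6
        _ = (x * (1 - x) ^ (2 * d)) * (((unc Y).card - 1 : ℝ) * cnt (insert s(a, b) Y) E2) := by
            ring
        _ ≤ (x * (1 - x) ^ (2 * d)) * cnt Y E2 :=
            mul_le_mul_of_nonneg_left h3 (mul_nonneg hx0 (pow_nonneg (by linarith) _))
        _ = x * ((1 - x) ^ (2 * d) * cnt Y E2) := by ring
        _ ≤ x * cnt Y E := mul_le_mul_of_nonneg_left h7 hx0

lemma cnt_ge {Y F : Finset (Sym2 V)} (hF : ∀ e ∈ F, ¬ e.IsDiag ∧ ∀ v ∈ e, v ∈ unc Y)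
    {d : ℕ} (hd : ∀ v, (F.filter (fun e => v ∈ e)).card ≤ d) {x : ℝ} (hx0 : 0 ≤ x) (hx1 : x ≤ 1)
    (hx : 1 ≤ ((unc Y).card - 1 : ℝ) * (x * (1 - x) ^ (2 * d))) :
    (1 - x) ^ F.card * cnt Y ∅ ≤ cnt Y F := by
  have hadd : ∀ G : Finset (Sym2 V), G ⊆ F → (1 - x) ^ G.card * cnt Y ∅ ≤ cnt Y G := by
    intro G
    induction G using Finset.induction_on with
    | empty =>
      intro _
      simp
    | insert f G hfG ihG =>
      intro hsub
      have hf1 : f ∈ F := hsub (mem_insert_self _ _)
      have hG1 : G ⊆ F := fun g hg => hsub (mem_insert_of_mem hg)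
      have h1 := lll hF hd hx0 hx1 hx _ G rfl hG1 f hf1 hfG
      have h2 := cnt_insert_avoid Y G f
      rw [card_insert_of_notMem hfG, pow_succ]
      have h4 := ihG hG1
      have h5 : 0 ≤ 1 - x := by linarith
      nlinarith
  exact hadd F (Subset.refl _)

end Pool.Agent.Helper70K9.Cry
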