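import Mathlib

/-!
# Perfect matchings avoiding a set of pairs: counting
-/

set_option autoImplicit false

namespace Pool.Agent.Helper70K9.Cry

open Finset

/-- Perfect matchings of a finite set, as involutions without fixed points. -/
def Mat (V : Type) : Type := {f : V → V // (∀ v, f (f v) = v) ∧ ∀ v, f v ≠ v}

variable {V : Type} [Fintype V] [DecidableEq V]

instance : Fintype (Mat V) := by
  unfold Mat
  infer_instance

instance : DecidableEq (Mat V) := by
  unfold Mat
  infer_instance

/-- The pair `e` is matched by `M`. -/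
def Has (M : Mat V) (e : Sym2 V) : Prop := ∃ v, s(v, M.1 v) = e

omit [Fintype V] [DecidableEq V] in
lemma has_mk {M : Mat V} {u v : V} : Has M s(u, v) ↔ M.1 u = v := by
  constructor
  · rintro ⟨w, hw⟩
    rcases Sym2.eq_iff.1 hw with ⟨rfl, h⟩ | ⟨rfl, h⟩
    · exact h
    · rw [← h, M.2.1]
  · rintro rfl
    exact ⟨u, rfl⟩

omit [Fintype V] [DecidableEq V] in
lemma has_not_diag {M : Mat V} {e : Sym2 V} (h : Has M e) : ¬ e.IsDiag := by
  obtain ⟨v, rfl⟩ := h
  rw [Sym2.mk_isDiag_iff]
  exact fun h => M.2.2 v h.symm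

omit [Fintype V] [DecidableEq V] in
lemma has_unique {M : Mat V} {e f : Sym2 V} (he : Has M e) (hf : Has M f) {v : V} (h1 : v ∈ e)
    (h2 : v ∈ f) : e = f := by
  obtain ⟨a, rfl⟩ := Sym2.mem_iff_exists.1 h1
  obtain ⟨b, rfl⟩ := Sym2.mem_iff_exists.1 h2
  rw [has_mk] at he hf
  rw [← he, ← hf]

open Classical in
/-- The matchings containing `Y` and avoiding `F`. -/
noncomputable def cons (Y F : Finset (Sym2 V)) : Finset (Mat V) :=
  univ.filter (fun M => (∀ e ∈ Y, Has M e) ∧ ∀ e ∈ F, ¬ Has M e)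

lemma mem_cons {Y F : Finset (Sym2 V)} {M : Mat V} :
    M ∈ cons Y F ↔ (∀ e ∈ Y, Has M e) ∧ ∀ e ∈ F, ¬ Has M e := by
  classical
  simp [cons]

/-- `Y` is a set of disjoint pairs. -/
def IsPart (Y : Finset (Sym2 V)) : Prop :=
  (∀ e ∈ Y, ¬ e.IsDiag) ∧ ∀ e ∈ Y, ∀ f ∈ Y, ∀ v, v ∈ e → v ∈ f → e = f

/-- The vertices not covered by `Y`. -/
def unc (Y : Finset (Sym2 V)) : Finset V := univ.filter (fun v => ∀ e ∈ Y, v ∉ e)

lemma mem_unc {Y : Finset (Sym2 V)} {v : V} : v ∈ unc Y ↔ ∀ e ∈ Y, v ∉ e := by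
  unfold unc
  rw [mem_filter]
  simp

omit [Fintype V] [DecidableEq V] in
lemma isPart_empty : IsPart (∅ : Finset (Sym2 V)) := by
  constructor <;> simp

lemma isPart_insert {Y : Finset (Sym2 V)} (hY : IsPart Y) {u v : V} (hu : u ∈ unc Y)
    (hv : v ∈ unc Y) (huv : u ≠ v) : IsPart (insert s(u, v) Y) := by
  rw [mem_unc] at hu hv
  constructor
  · intro e he
    rw [mem_insert] at he
    rcases he with rfl | he
    · rwa [Sym2.mk_isDiag_iff]
    · exact hY.1 e he
  · intro e he f hf w h1 h2
    rw [mem_insert] at he hf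
    rcases he with rfl | he <;> rcases hf with rfl | hf
    · rfl
    · rw [Sym2.mem_iff] at h1
      rcases h1 with rfl | rfl
      · exact absurd h2 (hu f hf)
      · exact absurd h2 (hv f hf)
    · rw [Sym2.mem_iff] at h2
      rcases h2 with rfl | rfl
      · exact absurd h1 (hu e he)
      · exact absurd h1 (hv e he)
    · exact hY.2 e he f hf w h1 h2

lemma unc_insert {Y : Finset (Sym2 V)} {u v : V} :
    unc (insert s(u, v) Y) = ((unc Y).erase u).erase v := by
  ext w
  rw [mem_erase, mem_erase, mem_unc, mem_unc]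
  simp only [mem_insert, forall_eq_or_imp, Sym2.mem_iff, not_or]
  tauto

lemma not_mem_of_unc {Y : Finset (Sym2 V)} {u v : V} (hu : u ∈ unc Y) : s(u, v) ∉ Y := by
  intro h
  rw [mem_unc] at hu
  exact hu _ h (Sym2.mem_mk_left _ _)

lemma card_unc_insert {Y : Finset (Sym2 V)} {u v : V} (hu : u ∈ unc Y)
    (hv : v ∈ unc Y) (huv : u ≠ v) : (unc (insert s(u, v) Y)).card + 2 = (unc Y).card := by
  have h1 : ((unc Y).erase u).card + 1 = (unc Y).card := card_erase_add_one hu
  have h2 : (((unc Y).erase u).erase v).card + 1 = ((unc Y).erase u).card :=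
    card_erase_add_one (mem_erase.2 ⟨huv.symm, hv⟩)
  rw [unc_insert]
  omega

lemma card_unc {Y : Finset (Sym2 V)} (hY : IsPart Y) :
    (unc Y).card + 2 * Y.card = Fintype.card V := by
  induction Y using Finset.induction_on with
  | empty =>
    have : unc (∅ : Finset (Sym2 V)) = univ := by
      ext v
      simp [mem_unc]
    rw [this]
    simp
  | insert e Y he ih =>
    have hY' : IsPart Y := ⟨fun f hf => hY.1 f (mem_insert_of_mem hf),
      fun f hf g hg => hY.2 f (mem_insert_of_mem hf) g (mem_insert_of_mem hg)⟩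
    have ih' := ih hY'
    induction e with
    | _ u v =>
      have huv : u ≠ v := by
        have := hY.1 _ (mem_insert_self _ _)
        rwa [Sym2.mk_isDiag_iff] at this
      have hu : u ∈ unc Y := by
        rw [mem_unc]
        intro f hf hfu
        exact he (hY.2 _ (mem_insert_self _ _) f (mem_insert_of_mem hf) u (Sym2.mem_mk_left _ _)
          hfu ▸ hf)
      have hv : v ∈ unc Y := by
        rw [mem_unc]
        intro f hf hfv
        exact he (hY.2 _ (mem_insert_self _ _) f (mem_insert_of_mem hf) v (Sym2.mem_mk_right _ _)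
          hfv ▸ hf)
      have := card_unc_insert hu hv huv
      rw [card_insert_of_notMem he]
      omega

/-- Splitting according to the partner of an uncovered vertex. -/
lemma sum_cons_split {Y F : Finset (Sym2 V)} (φ : Mat V → ℝ) {v : V} (hv : v ∈ unc Y) :
    ∑ M ∈ cons Y F, φ M =
      ∑ u ∈ ((unc Y).erase v).filter (fun u => s(v, u) ∉ F),
        ∑ M ∈ cons (insert s(v, u) Y) F, φ M := by
  have hmaps : ∀ M ∈ cons Y F, M.1 v ∈ ((unc Y).erase v).filter (fun u => s(v, u) ∉ F) := by
    intro M hM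
    rw [mem_cons] at hM
    rw [mem_filter, mem_erase, mem_unc]
    refine ⟨⟨M.2.2 v, ?_⟩, ?_⟩
    · intro e he hve
      have h1 : Has M s(v, M.1 v) := ⟨v, rfl⟩
      have h2 := has_unique (hM.1 e he) h1 hve (Sym2.mem_mk_right _ _)
      rw [mem_unc] at hv
      exact hv e he (h2 ▸ Sym2.mem_mk_left _ _)
    · intro h
      exact hM.2 _ h ⟨v, rfl⟩
  rw [← sum_fiberwise_of_maps_to hmaps]
  refine sum_congr rfl fun u hu => ?_
  refine sum_congr ?_ fun _ _ => rfl
  ext M
  rw [mem_filter, mem_cons, mem_cons]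
  simp only [mem_insert, forall_eq_or_imp, has_mk]
  tauto

/-- The number of matchings containing `Y` and avoiding `F`. -/
noncomputable def cnt (Y F : Finset (Sym2 V)) : ℝ := ((cons Y F).card : ℝ)

lemma cnt_nonneg (Y F : Finset (Sym2 V)) : 0 ≤ cnt Y F := Nat.cast_nonneg _

lemma cnt_eq_sum (Y F : Finset (Sym2 V)) : cnt Y F = ∑ _M ∈ cons Y F, (1 : ℝ) := by
  unfold cnt
  simp

lemma cnt_split {Y F : Finset (Sym2 V)} {v : V} (hv : v ∈ unc Y) :
    cnt Y F = ∑ u ∈ ((unc Y).erase v).filter (fun u => s(v, u) ∉ F),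
      cnt (insert s(v, u) Y) F := by
  simp only [cnt_eq_sum]
  exact sum_cons_split _ hv

lemma cnt_anti {Y F G : Finset (Sym2 V)} (h : F ⊆ G) : cnt Y G ≤ cnt Y F := by
  unfold cnt
  refine Nat.cast_le.2 (card_le_card ?_)
  intro M hM
  rw [mem_cons] at hM ⊢
  exact ⟨hM.1, fun e he => hM.2 e (h he)⟩

/-- A matching is determined by a perfect set of pairs. -/
lemma cons_card_le_one {Y F : Finset (Sym2 V)} (h : unc Y = ∅) : (cons Y F).card ≤ 1 := by
  rw [card_le_one]
  intro M hM N hN
  rw [mem_cons] at hM hN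
  refine Subtype.ext (funext fun v => ?_)
  have hv : v ∉ unc Y := by rw [h]; exact notMem_empty _
  rw [mem_unc] at hv
  push Not at hv
  obtain ⟨e, he, hve⟩ := hv
  obtain ⟨w, rfl⟩ := Sym2.mem_iff_exists.1 hve
  have h1 := hM.1 _ he
  have h2 := hN.1 _ he
  rw [has_mk] at h1 h2
  rw [h1, h2]

/-- A perfect set of disjoint pairs is a matching. -/
lemma cons_nonempty {Y : Finset (Sym2 V)} (hY : IsPart Y) (h : unc Y = ∅) :
    (cons Y ∅).Nonempty := by
  have hex : ∀ v, ∃ w, s(v, w) ∈ Y := by
    intro v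
    have hv : v ∉ unc Y := by rw [h]; exact notMem_empty _
    rw [mem_unc] at hv
    push Not at hv
    obtain ⟨e, he, hve⟩ := hv
    obtain ⟨w, rfl⟩ := Sym2.mem_iff_exists.1 hve
    exact ⟨w, he⟩
  choose f hf using hex
  have hu : ∀ v w, s(v, w) ∈ Y → f v = w := by
    intro v w hw
    have := hY.2 _ (hf v) _ hw v (Sym2.mem_mk_left _ _) (Sym2.mem_mk_left _ _)
    exact Sym2.congr_right.1 this
  have h1 : ∀ v, f (f v) = v := by
    intro v
    apply hu
    rw [Sym2.eq_swap]
    exact hf v
  have h2 : ∀ v, f v ≠ v := by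
    intro v hv
    have := hY.1 _ (hf v)
    rw [hv, Sym2.mk_isDiag_iff] at this
    exact this rfl
  obtain ⟨M, hM⟩ : ∃ M : Mat V, M.1 = f := ⟨⟨f, h1, h2⟩, rfl⟩
  refine ⟨M, mem_cons.2 ⟨fun e he => ?_, fun e he => absurd he (notMem_empty _)⟩⟩
  induction e with
  | _ u v =>
    rw [has_mk, hM]
    exact hu u v he

open Nat in
/-- The number of matchings containing `Y`. -/
lemma cnt_empty {Y : Finset (Sym2 V)} (hY : IsPart Y) (n : ℕ) (hn : (unc Y).card = 2 * n) :
    cnt Y ∅ = ((2 * n - 1)‼ : ℕ) := by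
  induction n generalizing Y with
  | zero =>
    have h0 : unc Y = ∅ := card_eq_zero.1 (by omega)
    have h1 := cons_card_le_one (F := ∅) h0
    have h2 := (cons_nonempty hY h0).card_pos
    have h3 : (cons Y ∅).card = 1 := by omega
    unfold cnt
    rw [h3]
    simp
  | succ n ih =>
    obtain ⟨v, hv⟩ : (unc Y).Nonempty := card_pos.1 (by omega)
    rw [cnt_split hv]
    have h1 : ((unc Y).erase v).filter (fun u => s(v, u) ∉ (∅ : Finset (Sym2 V))) =
        (unc Y).erase v := by
      rw [filter_true_of_mem]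
      intro u _
      exact notMem_empty _
    rw [h1]
    have h2 : ∀ u ∈ (unc Y).erase v, cnt (insert s(v, u) Y) ∅ = ((2 * n - 1)‼ : ℕ) := by
      intro u hu
      rw [mem_erase] at hu
      have := card_unc_insert hv hu.2 hu.1.symm
      exact ih (isPart_insert hY hv hu.2 hu.1.symm) (by omega)
    rw [sum_congr rfl h2, sum_const, card_erase_of_mem hv, hn, nsmul_eq_mul, ← Nat.cast_mul]
    congr 1
    rw [show 2 * (n + 1) - 1 = (2 * n - 1 + 1) + 1 - 1 + (if n = 0 then 0 else 1) by
      split_ifs <;> omega]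
    rcases Nat.eq_zero_or_pos n with rfl | hn0
    · simp
    · rw [if_neg (by omega)]
      obtain ⟨k, rfl⟩ : ∃ k, n = k + 1 := ⟨n - 1, by omega⟩
      rw [show 2 * (k + 1) - 1 = 2 * k + 1 by omega,
        show 2 * k + 1 + 1 + 1 - 1 + 1 = (2 * k + 1) + 2 by omega, Nat.doubleFactorial_add_two]

/-- The pairs of `F` with both ends in `U`. -/
def inn (U : Finset V) (F : Finset (Sym2 V)) : Finset (Sym2 V) :=
  F.filter (fun e => ¬ e.IsDiag ∧ ∀ v ∈ e, v ∈ U)

lemma mem_inn {U : Finset V} {F : Finset (Sym2 V)} {e : Sym2 V} :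
    e ∈ inn U F ↔ e ∈ F ∧ ¬ e.IsDiag ∧ ∀ v ∈ e, v ∈ U := by
  unfold inn
  rw [mem_filter]

/-- The degree of `v` in `U`. -/
def deg (U : Finset V) (F : Finset (Sym2 V)) (v : V) : ℕ :=
  ((U.erase v).filter (fun u => s(v, u) ∈ F)).card

lemma card_inn_erase (U : Finset V) (F : Finset (Sym2 V)) (v : V) :
    (inn U F).card ≤ (inn (U.erase v) F).card + deg U F v := by
  have h : inn U F ⊆ inn (U.erase v) F ∪
      ((U.erase v).filter (fun u => s(v, u) ∈ F)).image (fun u => s(v, u)) := by
    intro e he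
    rw [mem_inn] at he
    rw [mem_union, mem_inn, mem_image]
    by_cases hv : v ∈ e
    · right
      obtain ⟨w, rfl⟩ := Sym2.mem_iff_exists.1 hv
      refine ⟨w, ?_, rfl⟩
      rw [mem_filter, mem_erase]
      refine ⟨⟨?_, he.2.2 w (Sym2.mem_mk_right _ _)⟩, he.1⟩
      rintro rfl
      exact he.2.1 (Sym2.mk_isDiag_iff.2 rfl)
    · left
      refine ⟨he.1, he.2.1, fun w hw => ?_⟩
      rw [mem_erase]
      refine ⟨?_, he.2.2 w hw⟩
      rintro rfl
      exact hv hw
  refine (card_le_card h).trans ((card_union_le _ _).trans ?_)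
  exact Nat.add_le_add_left card_image_le _

omit [Fintype V] in
lemma deg_erase_le (U : Finset V) (F : Finset (Sym2 V)) (v u : V) :
    deg (U.erase v) F u ≤ deg U F u := by
  unfold deg
  refine card_le_card (filter_subset_filter _ ?_)
  exact erase_subset_erase _ (erase_subset _ _)

open Nat in
/-- **The upper bound.** -/
lemma cnt_le {F : Finset (Sym2 V)} {c : ℝ} (hc : 0 ≤ c) {Y : Finset (Sym2 V)} (hY : IsPart Y)
    (n : ℕ) (hn : (unc Y).card = 2 * n) (hcn : 2 * c * (2 * n - 1) ≤ 1) :
    cnt Y F ≤ ((2 * n - 1)‼ : ℕ) * Real.exp (-(c * (inn (unc Y) F).card)) := by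
  induction n generalizing Y with
  | zero =>
    have h0 : unc Y = ∅ := card_eq_zero.1 (by omega)
    have h1 := cons_card_le_one (F := F) h0
    have h2 : inn (unc Y) F = ∅ := by
      rw [eq_empty_iff_forall_notMem]
      intro e he
      rw [mem_inn, h0] at he
      induction e with
      | _ u v => exact absurd (he.2.2 u (Sym2.mem_mk_left _ _)) (notMem_empty _)
    rw [h2]
    unfold cnt
    simpa using h1
  | succ n ih =>
    have hne : (unc Y).Nonempty := card_pos.1 (by omega)
    obtain ⟨v, hv, hmax⟩ := exists_max_image (unc Y) (deg (unc Y) F) hne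
    set δ := deg (unc Y) F v with hδ
    have hN : ((2 * (n + 1) : ℕ) : ℝ) - 1 = 2 * n + 1 := by push_cast; ring
    rw [cnt_split hv]
    have hcard : (((unc Y).erase v).filter (fun u => s(v, u) ∉ F)).card + δ = 2 * n + 1 := by
      have h1 := card_filter_add_card_filter_not (s := (unc Y).erase v) (fun u => s(v, u) ∈ F)
      rw [card_erase_of_mem hv, hn] at h1
      rw [hδ]
      unfold deg
      omega
    have hterm : ∀ u ∈ ((unc Y).erase v).filter (fun u => s(v, u) ∉ F),
        cnt (insert s(v, u) Y) F ≤ ((2 * n - 1)‼ : ℕ) *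
          Real.exp (-(c * (inn (unc Y) F).card) + 2 * c * δ) := by
      intro u hu
      rw [mem_filter, mem_erase] at hu
      obtain ⟨⟨huv, hu⟩, -⟩ := hu
      have h1 := card_unc_insert hv hu huv.symm
      have h2 := ih (isPart_insert hY hv hu huv.symm) (by omega) (by
        have : 2 * c * (2 * (n : ℝ) - 1) ≤ 2 * c * (2 * ((n + 1 : ℕ) : ℝ) - 1) := by
          push_cast
          nlinarith
        linarith)
      refine h2.trans ?_
      apply mul_le_mul_of_nonneg_left _ (Nat.cast_nonneg _)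
      apply Real.exp_le_exp.2
      have h3 := card_inn_erase (unc Y) F v
      have h4 := card_inn_erase ((unc Y).erase v) F u
      have h5 := deg_erase_le (unc Y) F v u
      have h6 := hmax u hu
      rw [unc_insert]
      have h7 : ((inn (unc Y) F).card : ℝ) ≤
          (inn (((unc Y).erase v).erase u) F).card + 2 * δ := by
        have : (inn (unc Y) F).card ≤ (inn (((unc Y).erase v).erase u) F).card + 2 * δ := by omega
        exact_mod_cast this
      nlinarith
    refine (sum_le_sum hterm).trans ?_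
    rw [sum_const, nsmul_eq_mul]
    have hc1 : ((((unc Y).erase v).filter (fun u => s(v, u) ∉ F)).card : ℝ) = 2 * n + 1 - δ := by
      have : ((((unc Y).erase v).filter (fun u => s(v, u) ∉ F)).card : ℝ) + δ = 2 * n + 1 := by
        exact_mod_cast hcard
      linarith
    rw [hc1, Real.exp_add]
    have hpos : (0 : ℝ) < 2 * n + 1 := by positivity
    have hδn : (δ : ℝ) ≤ 2 * n + 1 := by
      have : δ ≤ 2 * n + 1 := by omega
      exact_mod_cast this
    have key : (2 * n + 1 - δ : ℝ) * Real.exp (2 * c * δ) ≤ 2 * n + 1 := by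
      have h1 : (2 * n + 1 - δ : ℝ) ≤ (2 * n + 1) * Real.exp (-(δ / (2 * n + 1))) := by
        have := Real.add_one_le_exp (-(δ / (2 * n + 1) : ℝ))
        calc (2 * n + 1 - δ : ℝ) = (2 * n + 1) * (-(δ / (2 * n + 1)) + 1) := by
              field_simp
              ring
          _ ≤ _ := mul_le_mul_of_nonneg_left this hpos.le
      calc (2 * n + 1 - δ : ℝ) * Real.exp (2 * c * δ)
          ≤ (2 * n + 1) * Real.exp (-(δ / (2 * n + 1))) * Real.exp (2 * c * δ) :=
            mul_le_mul_of_nonneg_right h1 (Real.exp_pos _).le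
        _ = (2 * n + 1) * Real.exp (-(δ / (2 * n + 1)) + 2 * c * δ) := by
            rw [mul_assoc, ← Real.exp_add]
        _ ≤ (2 * n + 1) * 1 := by
            apply mul_le_mul_of_nonneg_left _ hpos.le
            rw [Real.exp_le_one_iff]
            have h2 : 2 * c * (2 * n + 1) ≤ 1 := by
              have := hcn
              push_cast at this
              linarith
            have h3 : 2 * c * δ ≤ δ / (2 * n + 1) := by
              rw [le_div_iff₀ hpos]
              have : (0 : ℝ) ≤ δ := Nat.cast_nonneg _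
              nlinarith
            linarith
        _ = 2 * n + 1 := mul_one _
    have hdf : ((2 * (n + 1) - 1)‼ : ℕ) = (2 * n + 1) * (2 * n - 1)‼ := by
      rcases Nat.eq_zero_or_pos n with rfl | hn0
      · simp
      · obtain ⟨k, rfl⟩ : ∃ k, n = k + 1 := ⟨n - 1, by omega⟩
        rw [show 2 * (k + 1 + 1) - 1 = (2 * k + 1) + 2 by omega,
          show 2 * (k + 1) - 1 = 2 * k + 1 by omega, Nat.doubleFactorial_add_two,
          show 2 * k + 1 + 2 = 2 * (k + 1) + 1 by ring]
    rw [hdf]
    push_cast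
    calc (2 * n + 1 - δ : ℝ) * (((2 * n - 1)‼ : ℕ) * (Real.exp (-(c * (inn (unc Y) F).card)) *
          Real.exp (2 * c * δ)))
        = ((2 * n + 1 - δ : ℝ) * Real.exp (2 * c * δ)) * (((2 * n - 1)‼ : ℕ) *
          Real.exp (-(c * (inn (unc Y) F).card))) := by ring
      _ ≤ (2 * n + 1) * (((2 * n - 1)‼ : ℕ) * Real.exp (-(c * (inn (unc Y) F).card))) := by
          apply mul_le_mul_of_nonneg_right key
          positivity
      _ = _ := by ring

end Pool.Agent.Helper70K9.Cry
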