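import Pool.Agent.Helper70K9.Cry.Proc

/-!
# The potential argument
-/

set_option autoImplicit false

namespace Pool.Agent.Helper70K9.Cry

open Finset

section general

variable {m : ℕ}

open Classical in
/-- The pairs of neighbours. -/
noncomputable def adjs (m : ℕ) : Finset (Sym2 (Fin m)) :=
  univ.filter (fun e => ∃ u v : Fin m, v.val = u.val + 1 ∧ e = s(u, v))

lemma mem_adjs {e : Sym2 (Fin m)} : e ∈ adjs m ↔ ∃ u v : Fin m, v.val = u.val + 1 ∧ e = s(u, v) := by
  simp [adjs]

lemma mk_mem_adjs {u v : Fin m} : s(u, v) ∈ adjs m ↔ v.val = u.val + 1 ∨ v.val + 1 = u.val := by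
  rw [mem_adjs]
  constructor
  · rintro ⟨a, b, h, hab⟩
    rcases Sym2.eq_iff.1 hab with ⟨rfl, rfl⟩ | ⟨rfl, rfl⟩
    · exact Or.inl h
    · exact Or.inr h.symm
  · rintro (h | h)
    · exact ⟨u, v, h, rfl⟩
    · exact ⟨v, u, h.symm, Sym2.eq_swap⟩

/-- All the uncovered pairs of neighbours are known not to be matched. -/
def Complete (Y F : Finset (Sym2 (Fin m))) : Prop :=
  ∀ e ∈ adjs m, (∀ v ∈ e, v ∈ unc Y) → e ∈ F

lemma sum_cons_insert (g : Mat (Fin m) → ℝ) (Y F : Finset (Sym2 (Fin m))) (e : Sym2 (Fin m)) :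
    ∑ M ∈ cons Y F, g M = ∑ M ∈ cons (insert e Y) F, g M + ∑ M ∈ cons Y (insert e F), g M := by
  classical
  rw [← sum_union]
  · refine sum_congr ?_ fun _ _ => rfl
    ext M
    rw [mem_union, mem_cons, mem_cons, mem_cons]
    simp only [mem_insert, forall_eq_or_imp]
    tauto
  · rw [disjoint_left]
    intro M h1 h2
    rw [mem_cons] at h1 h2
    exact h2.2 e (mem_insert_self _ _) (h1.1 e (mem_insert_self _ _))

/-- It is enough to prove the bound for complete states. -/
lemma of_complete (g : Mat (Fin m) → ℝ) (B θ : ℝ)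
    (h : ∀ Y F : Finset (Sym2 (Fin m)), IsPart Y → Y ⊆ adjs m → (∀ e ∈ F, ¬ e.IsDiag) →
      Complete Y F → ∑ M ∈ cons Y F, g M ≤ B * θ ^ Y.card * (1 - θ) ^ F.card) :
    ∀ Y F : Finset (Sym2 (Fin m)), IsPart Y → Y ⊆ adjs m → (∀ e ∈ F, ¬ e.IsDiag) →
      ∑ M ∈ cons Y F, g M ≤ B * θ ^ Y.card * (1 - θ) ^ F.card := by
  classical
  suffices H : ∀ (r : ℕ) (Y F : Finset (Sym2 (Fin m))),
      ((adjs m).filter (fun e => (∀ v ∈ e, v ∈ unc Y) ∧ e ∉ F)).card = r →
      IsPart Y → Y ⊆ adjs m → (∀ e ∈ F, ¬ e.IsDiag) →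
      ∑ M ∈ cons Y F, g M ≤ B * θ ^ Y.card * (1 - θ) ^ F.card by
    intro Y F
    exact H _ Y F rfl
  intro r
  induction r using Nat.strong_induction_on with
  | _ r ih =>
    intro Y F hr hY hYa hF
    by_cases hc : Complete Y F
    · exact h Y F hY hYa hF hc
    · unfold Complete at hc
      push Not at hc
      obtain ⟨e, he, heu, heF⟩ := hc
      have heY : e ∉ Y := by
        intro heY
        induction e with
        | _ u v => exact not_mem_of_unc (heu u (Sym2.mem_mk_left _ _)) heY
      have hed : ¬ e.IsDiag := by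
        obtain ⟨u, v, huv, rfl⟩ := mem_adjs.1 he
        rw [Sym2.mk_isDiag_iff]
        rintro rfl
        omega
      have hmem : e ∈ (adjs m).filter (fun e => (∀ v ∈ e, v ∈ unc Y) ∧ e ∉ F) := by
        rw [mem_filter]
        exact ⟨he, heu, heF⟩
      have h1 : ((adjs m).filter (fun f => (∀ v ∈ f, v ∈ unc (insert e Y)) ∧ f ∉ F)).card < r := by
        rw [← hr]
        refine card_lt_card ⟨?_, fun hsub => ?_⟩
        · intro f hf
          rw [mem_filter] at hf ⊢
          refine ⟨hf.1, fun v hv => ?_, hf.2.2⟩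
          have := hf.2.1 v hv
          rw [mem_unc] at this ⊢
          exact fun a ha => this a (mem_insert_of_mem ha)
        · have := hsub hmem
          rw [mem_filter] at this
          induction e with
          | _ u v =>
            have h2 := this.2.1 u (Sym2.mem_mk_left _ _)
            rw [mem_unc] at h2
            exact h2 _ (mem_insert_self _ _) (Sym2.mem_mk_left _ _)
      have h2 : ((adjs m).filter (fun f => (∀ v ∈ f, v ∈ unc Y) ∧ f ∉ insert e F)).card < r := by
        rw [← hr]
        refine card_lt_card ⟨?_, fun hsub => ?_⟩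
        · intro f hf
          rw [mem_filter] at hf ⊢
          exact ⟨hf.1, hf.2.1, fun h => hf.2.2 (mem_insert_of_mem h)⟩
        · have := hsub hmem
          rw [mem_filter] at this
          exact this.2.2 (mem_insert_self _ _)
      have hYe : IsPart (insert e Y) := by
        induction e with
        | _ u v =>
          rw [Sym2.mk_isDiag_iff] at hed
          exact isPart_insert hY (heu u (Sym2.mem_mk_left _ _)) (heu v (Sym2.mem_mk_right _ _)) hed
      have h3 := ih _ h1 (insert e Y) F rfl hYe (insert_subset he hYa) hF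
      have h4 := ih _ h2 Y (insert e F) rfl hY hYa (by
        intro f hf
        rw [mem_insert] at hf
        rcases hf with rfl | hf
        · exact hed
        · exact hF f hf)
      rw [sum_cons_insert g Y F e]
      rw [card_insert_of_notMem heY] at h3
      rw [card_insert_of_notMem heF] at h4
      calc _ ≤ B * θ ^ (Y.card + 1) * (1 - θ) ^ F.card + B * θ ^ Y.card * (1 - θ) ^ (F.card + 1) :=
            add_le_add h3 h4
        _ = _ := by ring

lemma complete_shortEnd {Y F : Finset (Sym2 (Fin m))} (hYa : Y ⊆ adjs m) (hc : Complete Y F)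
    {M : Mat (Fin m)} (hM : M ∈ cons Y F) (v : Fin m) : ShortEnd M v ↔ v ∉ unc Y := by
  rw [mem_cons] at hM
  constructor
  · intro hv hvu
    have h1 : s(v, M.1 v) ∈ adjs m := by
      rw [mk_mem_adjs]
      exact hv
    have h2 : M.1 v ∈ unc Y := by
      rw [mem_unc]
      intro f hf hvf
      have h3 := has_unique (hM.1 f hf) (⟨v, rfl⟩ : Has M s(v, M.1 v)) hvf (Sym2.mem_mk_right _ _)
      exact not_mem_of_unc hvu (h3 ▸ hf)
    have h3 := hc _ h1 (by
      intro w hw
      rw [Sym2.mem_iff] at hw
      rcases hw with rfl | rfl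
      · exact hvu
      · exact h2)
    exact hM.2 _ h3 ⟨v, rfl⟩
  · intro hv
    rw [mem_unc] at hv
    push Not at hv
    obtain ⟨e, he, hve⟩ := hv
    obtain ⟨w, rfl⟩ := Sym2.mem_iff_exists.1 hve
    have h1 := hM.1 _ he
    rw [has_mk] at h1
    have h2 := hYa he
    rw [mk_mem_adjs] at h2
    unfold ShortEnd
    rw [h1]
    exact h2

lemma complete_ends {Y F : Finset (Sym2 (Fin m))} (hYa : Y ⊆ adjs m) (hc : Complete Y F)
    {M : Mat (Fin m)} (hM : M ∈ cons Y F) : ends M = unc Y := by
  ext v
  rw [mem_ends, complete_shortEnd hYa hc hM, not_not]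

lemma card_le_short {Y F : Finset (Sym2 (Fin m))} (hYa : Y ⊆ adjs m)
    {M : Mat (Fin m)} (hM : M ∈ cons Y F) : Y.card ≤ short M := by
  rw [mem_cons] at hM
  have : Y ⊆ (univ.filter (fun v : Fin m => (M.1 v).val = v.val + 1)).image
      (fun v => s(v, M.1 v)) := by
    intro e he
    obtain ⟨u, v, huv, rfl⟩ := mem_adjs.1 (hYa he)
    have h1 := hM.1 _ he
    rw [has_mk] at h1
    rw [mem_image]
    refine ⟨u, ?_, by rw [h1]⟩
    rw [mem_filter]
    exact ⟨mem_univ _, by rw [h1, huv]⟩
  exact (card_le_card this).trans card_image_le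

lemma sym2_map_injective {τ : Equiv.Perm (Fin m)} : Function.Injective (Sym2.map τ) :=
  Sym2.map.injective τ.injective

end general

open Classical in
lemma U_succ {n : ℕ} (A : Set (Mat (Fin (2 * n)))) (t : ℕ) (M : Mat (Fin (2 * n))) :
    U A (t + 1) M = if (ends M).Nonempty then
      avg (ends M) (fun i => avg (nbrs i) (fun j => U A t (move M i j))) else U A t M := by
  rw [U]

/-- **The potential argument.** -/
lemma potential {n : ℕ} (A : Set (Mat (Fin (2 * n)))) (B θ : ℝ)
    (h0 : ∀ Y F : Finset (Sym2 (Fin (2 * n))), IsPart Y → Y ⊆ adjs (2 * n) →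
      (∀ e ∈ F, ¬ e.IsDiag) → Complete Y F →
      ∑ M ∈ cons Y F, U A 0 M ≤ B * θ ^ Y.card * (1 - θ) ^ F.card) (t : ℕ) :
    ∀ Y F : Finset (Sym2 (Fin (2 * n))), IsPart Y → Y ⊆ adjs (2 * n) →
      (∀ e ∈ F, ¬ e.IsDiag) →
      ∑ M ∈ cons Y F, U A t M ≤ B * θ ^ Y.card * (1 - θ) ^ F.card := by
  induction t with
  | zero => exact of_complete _ B θ h0
  | succ t ih =>
    apply of_complete
    intro Y F hY hYa hF hc
    by_cases hne : (unc Y).Nonempty
    · have h1 : ∀ M ∈ cons Y F, U A (t + 1) M =
          avg (unc Y) (fun i => avg (nbrs i) (fun j => U A t (move M i j))) := by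
        intro M hM
        have he := complete_ends hYa hc hM
        rw [U_succ, if_pos (by rw [he]; exact hne), he]
      rw [sum_congr rfl h1, sum_avg]
      apply avg_le hne
      intro i hi
      rw [sum_avg]
      apply avg_le (nbrs_nonempty i)
      intro j hj
      by_cases hju : j ∈ unc Y
      · have h2 : ∀ M ∈ cons Y F, U A t (move M i j) = U A t (conj (Equiv.swap i j) M) := by
          intro M hM
          unfold move
          rw [if_neg]
          rw [complete_shortEnd hYa hc hM, not_not]
          exact hju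
        rw [sum_congr rfl h2, sum_conj (Equiv.swap i j) Y F (fun M => U A t M)]
        have h3 : Y.image (Sym2.map (Equiv.swap i j)) = Y := by
          have h4 : ∀ e ∈ Y, Sym2.map (Equiv.swap i j) e = e := by
            intro e he
            have h5 : e.map (Equiv.swap i j) = e.map id :=
              Sym2.map_congr fun x hx => Equiv.swap_apply_of_ne_of_ne
                (fun h => mem_unc.1 hi e he (h ▸ hx)) (fun h => mem_unc.1 hju e he (h ▸ hx))
            rw [h5, Sym2.map_id, id]
          ext e
          rw [mem_image]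
          constructor
          · rintro ⟨f, hf, rfl⟩
            rwa [h4 f hf]
          · intro he
            exact ⟨e, he, h4 e he⟩
        have h4 : (F.image (Sym2.map (Equiv.swap i j))).card = F.card :=
          card_image_of_injective _ sym2_map_injective
        have h5 := ih Y (F.image (Sym2.map (Equiv.swap i j))) hY hYa (by
          intro e he
          rw [mem_image] at he
          obtain ⟨f, hf, rfl⟩ := he
          have := hF f hf
          induction f with
          | _ u v =>
            rw [Sym2.map_mk, Sym2.mk_isDiag_iff]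
            rw [Sym2.mk_isDiag_iff] at this
            exact fun h => this ((Equiv.swap i j).injective h))
        rw [h4] at h5
        rw [h3]
        exact h5
      · have h2 : ∀ M ∈ cons Y F, U A t (move M i j) = U A t M := by
          intro M hM
          unfold move
          rw [if_pos]
          rw [complete_shortEnd hYa hc hM]
          exact hju
        rw [sum_congr rfl h2]
        exact ih Y F hY hYa hF
    · have h1 : ∀ M ∈ cons Y F, U A (t + 1) M = U A t M := by
        intro M hM
        have he := complete_ends hYa hc hM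
        rw [U_succ, if_neg (by rw [he]; exact hne)]
      rw [sum_congr rfl h1]
      exact ih Y F hY hYa hF

/-! ### The bubbles of a complete state -/

section bubbles

variable {m : ℕ}

open Classical in
/-- The pairs in the same run of uncovered vertices. -/
noncomputable def inner (Y : Finset (Sym2 (Fin m))) : Finset (Sym2 (Fin m)) :=
  univ.filter (fun e => ∃ u v : Fin m, u < v ∧ e = s(u, v) ∧ ∀ w, u ≤ w → w ≤ v → w ∈ unc Y)

lemma mem_inner {Y : Finset (Sym2 (Fin m))} {e : Sym2 (Fin m)} : e ∈ inner Y ↔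
    ∃ u v : Fin m, u < v ∧ e = s(u, v) ∧ ∀ w, u ≤ w → w ≤ v → w ∈ unc Y := by
  simp [inner]

lemma inner_inn (Y : Finset (Sym2 (Fin m))) : inner Y ⊆ inn (unc Y) (inner Y) := by
  intro e he
  rw [mem_inn]
  refine ⟨he, ?_⟩
  obtain ⟨u, v, huv, rfl, h⟩ := mem_inner.1 he
  refine ⟨?_, ?_⟩
  · rw [Sym2.mk_isDiag_iff]
    exact huv.ne
  · intro w hw
    rw [Sym2.mem_iff] at hw
    rcases hw with rfl | rfl
    · exact h _ le_rfl huv.le
    · exact h _ huv.le le_rfl

/-- A crystallized diagram avoids the inner pairs. -/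
lemma cryst_avoid {Y F : Finset (Sym2 (Fin m))} (hYa : Y ⊆ adjs m) (hc : Complete Y F)
    {M : Mat (Fin m)} (hM : M ∈ cons Y F) (hcr : Crystallized M) : M ∈ cons Y (F ∪ inner Y) := by
  rw [mem_cons]
  refine ⟨(mem_cons.1 hM).1, fun e he => ?_⟩
  rw [mem_union] at he
  rcases he with he | he
  · exact (mem_cons.1 hM).2 e he
  · obtain ⟨u, v, huv, rfl, h⟩ := mem_inner.1 he
    rw [has_mk]
    rintro rfl
    refine hcr u fun w hw1 hw2 => ?_
    rw [min_eq_left huv.le] at hw1
    rw [max_eq_right huv.le] at hw2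
    rw [complete_shortEnd hYa hc hM, not_not]
    exact h w hw1 hw2

/-- The number of pairs of `Y` to the left of `v`. -/
noncomputable def idx (Y : Finset (Sym2 (Fin m))) (v : Fin m) : ℕ := by
  classical
  exact (Y.filter (fun e => ∀ w ∈ e, w < v)).card

lemma idx_inner {Y : Finset (Sym2 (Fin m))} (hYa : Y ⊆ adjs m) {u v : Fin m} (huv : u < v)
    (hu : u ∈ unc Y) (hv : v ∈ unc Y) (h : idx Y u = idx Y v) : s(u, v) ∈ inner Y := by
  classical
  rw [mem_inner]
  refine ⟨u, v, huv, rfl, fun w hw1 hw2 => ?_⟩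
  rw [mem_unc]
  intro e he hwe
  unfold idx at h
  have hsub : Y.filter (fun e => ∀ w ∈ e, w < u) ⊆ Y.filter (fun e => ∀ w ∈ e, w < v) := by
    intro f hf
    rw [mem_filter] at hf ⊢
    exact ⟨hf.1, fun w hw => (hf.2 w hw).trans huv⟩
  have heq := eq_of_subset_of_card_le hsub h.ge
  have hu' : u ∉ e := mem_unc.1 hu e he
  have hv' : v ∉ e := mem_unc.1 hv e he
  have h1 : e ∈ Y.filter (fun e => ∀ w ∈ e, w < v) := by
    rw [mem_filter]
    refine ⟨he, ?_⟩
    obtain ⟨a, b, hab, rfl⟩ := mem_adjs.1 (hYa he)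
    rw [Sym2.mem_iff] at hwe hv'
    push Not at hv'
    intro z hz
    rw [Sym2.mem_iff] at hz
    rw [Fin.lt_def]
    rw [Fin.le_def] at hw2
    have h3 := Fin.val_ne_of_ne hv'.1
    have h4 := Fin.val_ne_of_ne hv'.2
    rcases hwe with rfl | rfl <;> rcases hz with rfl | rfl <;> omega
  rw [← heq, mem_filter] at h1
  have := h1.2 w hwe
  omega

lemma idx_le (Y : Finset (Sym2 (Fin m))) (v : Fin m) : idx Y v ≤ Y.card := by
  classical
  unfold idx
  exact card_filter_le _ _

/-- The number of inner pairs. -/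
lemma card_inner {Y : Finset (Sym2 (Fin m))} (hYa : Y ⊆ adjs m) :
    (unc Y).card ^ 2 ≤ (Y.card + 1) * (2 * (inner Y).card + (unc Y).card) := by
  classical
  set P : Finset (Fin m × Fin m) :=
    ((unc Y) ×ˢ (unc Y)).filter (fun p => idx Y p.1 = idx Y p.2) with hP
  set f : ℕ → ℕ := fun i => ((unc Y).filter (fun v => idx Y v = i)).card with hf
  have h1 : (unc Y).card = ∑ i ∈ range (Y.card + 1), f i := by
    refine card_eq_sum_card_fiberwise fun v _ => ?_
    rw [mem_coe, mem_range]
    exact Nat.lt_succ_of_le (idx_le Y v)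
  have h2 : P.card = ∑ i ∈ range (Y.card + 1), f i ^ 2 := by
    rw [card_eq_sum_card_fiberwise (f := fun p : Fin m × Fin m => idx Y p.1)
      (t := range (Y.card + 1))]
    · refine sum_congr rfl fun i _ => ?_
      rw [hf]
      simp only
      rw [sq, ← card_product]
      congr 1
      ext ⟨u, v⟩
      rw [hP]
      simp only [mem_filter, mem_product]
      constructor
      · rintro ⟨⟨⟨a, b⟩, c⟩, d⟩
        exact ⟨⟨a, d⟩, ⟨b, by rw [← c]; exact d⟩⟩
      · rintro ⟨⟨a, d⟩, ⟨b, c⟩⟩
        exact ⟨⟨⟨a, b⟩, by rw [c, d]⟩, d⟩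
    · intro p _
      rw [mem_coe, mem_range]
      exact Nat.lt_succ_of_le (idx_le Y _)
  have h3 : (unc Y).card ^ 2 ≤ (Y.card + 1) * P.card := by
    have := sq_sum_le_card_mul_sum_sq (s := range (Y.card + 1)) (f := f)
    rw [card_range] at this
    rw [h1, h2]
    exact this
  have h4 : (P.filter (fun p => p.1 = p.2)).card ≤ (unc Y).card := by
    refine card_le_card_of_injOn (fun p => p.1) ?_ ?_
    · intro p hp
      rw [mem_coe, mem_filter, hP, mem_filter, mem_product] at hp
      exact hp.1.1.1
    · intro p hp q hq h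
      rw [mem_coe, mem_filter] at hp hq
      have h5 : p.1 = q.1 := h
      ext
      · rw [h5]
      · rw [← hp.2, ← hq.2, h5]
  have h5 : (P.filter (fun p => ¬ p.1 = p.2)).card ≤ 2 * (inner Y).card := by
    refine card_le_mul_card_image_of_maps_to (f := fun p : Fin m × Fin m => s(p.1, p.2)) ?_ 2 ?_
    · intro p hp
      rw [mem_filter, hP, mem_filter, mem_product] at hp
      obtain ⟨⟨⟨ha, hb⟩, hc⟩, hd⟩ := hp
      rcases lt_or_gt_of_ne hd with hlt | hlt
      · exact idx_inner hYa hlt ha hb hc
      · have := idx_inner hYa hlt hb ha hc.symm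
        rwa [Sym2.eq_swap] at this
    · intro e _
      induction e with
      | _ a b =>
        have : (P.filter (fun p => ¬ p.1 = p.2)).filter (fun p => s(p.1, p.2) = s(a, b)) ⊆
            {(a, b), (b, a)} := by
          intro p hp
          rw [mem_filter] at hp
          rw [mem_insert, mem_singleton]
          rcases Sym2.eq_iff.1 hp.2 with h | h
          · left
            ext
            · rw [h.1]
            · rw [h.2]
          · right
            ext
            · rw [h.1]
            · rw [h.2]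
        exact (card_le_card this).trans card_le_two
  have h6 := card_filter_add_card_filter_not (s := P) (fun p => p.1 = p.2)
  calc (unc Y).card ^ 2 ≤ (Y.card + 1) * P.card := h3
    _ ≤ _ := by
      apply Nat.mul_le_mul_left
      omega

/-- Most pairs of `F` are uncovered. -/
lemma card_le_inn (U : Finset (Fin m)) (F : Finset (Sym2 (Fin m))) (hF : ∀ e ∈ F, ¬ e.IsDiag) :
    F.card ≤ (inn U F).card + (m - U.card) * m := by
  classical
  have h : F ⊆ inn U F ∪ (Uᶜ ×ˢ univ).image (fun p : Fin m × Fin m => s(p.1, p.2)) := by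
    intro e he
    rw [mem_union]
    by_cases h : ∀ v ∈ e, v ∈ U
    · left
      rw [mem_inn]
      exact ⟨he, hF e he, h⟩
    · right
      push Not at h
      obtain ⟨v, hv, hvU⟩ := h
      obtain ⟨w, rfl⟩ := Sym2.mem_iff_exists.1 hv
      rw [mem_image]
      exact ⟨(v, w), by simp [hvU], rfl⟩
  refine (card_le_card h).trans ((card_union_le _ _).trans ?_)
  apply Nat.add_le_add_left
  refine card_image_le.trans ?_
  rw [card_product, card_compl, card_univ, Fintype.card_fin]

lemma inn_mono {U : Finset (Fin m)} {F G : Finset (Sym2 (Fin m))} (h : F ⊆ G) :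
    inn U F ⊆ inn U G := by
  intro e he
  rw [mem_inn] at he ⊢
  exact ⟨h he.1, he.2⟩

end bubbles

end Pool.Agent.Helper70K9.Cry
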