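import Pool.Agent.Helper70K9.Cry.Low

/-!
# The crystallization process
-/

set_option autoImplicit false

namespace Pool.Agent.Helper70K9.Cry

open Finset

/-- `v` is an endpoint of a short chord of `M`. -/
def ShortEnd {m : ℕ} (M : Mat (Fin m)) (v : Fin m) : Prop :=
  (M.1 v).val = v.val + 1 ∨ (M.1 v).val + 1 = v.val

/-- `u` and `v` lie in the same bubble of `M`: no vertex from `u` to `v`, both included, is an
endpoint of a short chord. -/
def SameBubble {m : ℕ} (M : Mat (Fin m)) (u v : Fin m) : Prop :=
  ∀ w : Fin m, min u v ≤ w → w ≤ max u v → ¬ ShortEnd M w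

/-- No bubble contains both endpoints of a chord. -/
def Crystallized {m : ℕ} (M : Mat (Fin m)) : Prop := ∀ v, ¬ SameBubble M v (M.1 v)

/-- The number of short chords. -/
def short {m : ℕ} (M : Mat (Fin m)) : ℕ :=
  (univ.filter (fun v : Fin m => (M.1 v).val = v.val + 1)).card

open Classical in
/-- The endpoints of the chords which are not short. -/
noncomputable def ends {m : ℕ} (M : Mat (Fin m)) : Finset (Fin m) :=
  univ.filter (fun v => ¬ ShortEnd M v)

/-- The neighbours `i - 1`, `i + 1` of `i` on the line. -/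
def nbrs {m : ℕ} (i : Fin m) : Finset (Fin m) :=
  univ.filter (fun j => j.val = i.val + 1 ∨ j.val + 1 = i.val)

lemma nbrs_nonempty {n : ℕ} (i : Fin (2 * n)) : (nbrs i).Nonempty := by
  by_cases h : i.val + 1 < 2 * n
  · exact ⟨⟨i.val + 1, h⟩, by simp [nbrs]⟩
  · have h1 := i.2
    exact ⟨⟨i.val - 1, by omega⟩, by
      simp only [nbrs, mem_filter, mem_univ, true_and]
      omega⟩

open Classical in
/-- The result of choosing `i` and `j`: nothing changes if `j` is an endpoint of a short chord, and
otherwise `M` is replaced by its image under the transposition `(i j)`. -/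
noncomputable def move {m : ℕ} (M : Mat (Fin m)) (i j : Fin m) : Mat (Fin m) :=
  if ShortEnd M j then M else conj (Equiv.swap i j) M

open Classical in
/-- One step of the process. -/
noncomputable def step {n : ℕ} (M : Mat (Fin (2 * n))) : PMF (Mat (Fin (2 * n))) :=
  if h : (ends M).Nonempty then
    (PMF.uniformOfFinset (ends M) h).bind fun i =>
      (PMF.uniformOfFinset (nbrs i) (nbrs_nonempty i)).bind fun j => PMF.pure (move M i j)
  else PMF.pure M

open Classical in
/-- The law of the diagram after `t` steps, the process being stopped when it is crystallized. -/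
noncomputable def run {n : ℕ} : ℕ → Mat (Fin (2 * n)) → PMF (Mat (Fin (2 * n)))
  | 0, M => PMF.pure M
  | t + 1, M => if Crystallized M then PMF.pure M else (step M).bind (run t)

/-! ### Basic facts -/

section basic

variable {m : ℕ}

lemma mem_ends {M : Mat (Fin m)} {v : Fin m} : v ∈ ends M ↔ ¬ ShortEnd M v := by
  simp [ends]

lemma mem_nbrs {i j : Fin m} : j ∈ nbrs i ↔ j.val = i.val + 1 ∨ j.val + 1 = i.val := by
  simp [nbrs]

lemma shortEnd_partner {M : Mat (Fin m)} {v : Fin m} : ShortEnd M (M.1 v) ↔ ShortEnd M v := by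
  unfold ShortEnd
  rw [M.2.1]
  omega

lemma sameBubble_symm {M : Mat (Fin m)} {u v : Fin m} (h : SameBubble M u v) :
    SameBubble M v u := by
  intro w h1 h2
  rw [min_comm] at h1
  rw [max_comm] at h2
  exact h w h1 h2

lemma sameBubble_trans {M : Mat (Fin m)} {u v w : Fin m} (h1 : SameBubble M u v)
    (h2 : SameBubble M v w) : SameBubble M u w := by
  intro z hz1 hz2
  by_cases hz : min u v ≤ z ∧ z ≤ max u v
  · exact h1 z hz.1 hz.2
  · apply h2 z
    · simp only [min_le_iff, le_max_iff] at *
      omega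
    · simp only [min_le_iff, le_max_iff] at *
      omega

lemma sameBubble_self {M : Mat (Fin m)} {u : Fin m} (h : ¬ ShortEnd M u) :
    SameBubble M u u := by
  intro z hz1 hz2
  have : z = u := by
    rw [min_self] at hz1
    rw [max_self] at hz2
    exact le_antisymm hz2 hz1
  rwa [this]

lemma sameBubble_adj {M : Mat (Fin m)} {u v : Fin m} (hu : ¬ ShortEnd M u) (hv : ¬ ShortEnd M v)
    (h : v ∈ nbrs u) : SameBubble M u v := by
  intro z hz1 hz2
  rw [mem_nbrs] at h
  have : z = u ∨ z = v := by
    simp only [min_le_iff, le_max_iff, Fin.le_def] at hz1 hz2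
    rw [Fin.ext_iff, Fin.ext_iff]
    omega
  rcases this with rfl | rfl
  · exact hu
  · exact hv

/-- Exchanging two adjacent ends of a crystallized diagram. -/
lemma conj_shortEnd {M : Mat (Fin m)} (hM : Crystallized M) {i j : Fin m} (hi : ¬ ShortEnd M i)
    (hj : ¬ ShortEnd M j) (hij : j ∈ nbrs i) :
    (∀ v, ShortEnd M v → (conj (Equiv.swap i j) M).1 v = M.1 v) ∧
    (∀ v, ¬ SameBubble M v ((conj (Equiv.swap i j) M).1 v)) ∧
    (∀ v, ShortEnd (conj (Equiv.swap i j) M) v ↔ ShortEnd M v) := by
  have hsb : SameBubble M i j := sameBubble_adj hi hj hij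
  have h1 : ∀ v, ¬ ShortEnd M v → SameBubble M v (Equiv.swap i j v) := by
    intro v hv
    by_cases hvi : v = i
    · rw [hvi, Equiv.swap_apply_left]
      exact hsb
    · by_cases hvj : v = j
      · rw [hvj, Equiv.swap_apply_right]
        exact sameBubble_symm hsb
      · rw [Equiv.swap_apply_of_ne_of_ne hvi hvj]
        exact sameBubble_self hv
  have h2 : ∀ v, ¬ ShortEnd M v → ¬ ShortEnd M (Equiv.swap i j v) := by
    intro v hv
    exact h1 v hv _ (min_le_right _ _) (le_max_right _ _)
  have h3 : ∀ v, ShortEnd M v → (conj (Equiv.swap i j) M).1 v = M.1 v := by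
    intro v hv
    have hvi : v ≠ i := fun h => hi (h ▸ hv)
    have hvj : v ≠ j := fun h => hj (h ▸ hv)
    have hv' : ShortEnd M (M.1 v) := shortEnd_partner.2 hv
    have hvi' : M.1 v ≠ i := fun h => hi (h ▸ hv')
    have hvj' : M.1 v ≠ j := fun h => hj (h ▸ hv')
    rw [conj_val, Equiv.symm_swap, Equiv.swap_apply_of_ne_of_ne hvi hvj,
      Equiv.swap_apply_of_ne_of_ne hvi' hvj']
  have h4 : ∀ v, ¬ SameBubble M v ((conj (Equiv.swap i j) M).1 v) := by
    intro v h
    have hv : ¬ ShortEnd M v := h v (min_le_left _ _) (le_max_left _ _)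
    have hv1 := h2 v hv
    have hv2 : ¬ ShortEnd M (M.1 (Equiv.swap i j v)) := fun h => hv1 (shortEnd_partner.1 h)
    have h5 := h1 _ hv2
    rw [conj_val, Equiv.symm_swap] at h
    have h6 := sameBubble_trans (sameBubble_symm (h1 v hv)) (sameBubble_trans h
      (sameBubble_symm h5))
    exact hM _ h6
  refine ⟨h3, h4, fun v => ⟨fun hv => ?_, fun hv => ?_⟩⟩
  · by_contra hv0
    have hv1 := h2 v hv0
    have hv2 : ¬ ShortEnd M (M.1 (Equiv.swap i j v)) := fun h => hv1 (shortEnd_partner.1 h)
    have hv3 : ¬ ShortEnd M ((conj (Equiv.swap i j) M).1 v) := by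
      rw [conj_val, Equiv.symm_swap]
      exact h2 _ hv2
    refine h4 v (sameBubble_adj hv0 hv3 ?_)
    rw [mem_nbrs]
    exact hv
  · unfold ShortEnd at hv ⊢
    rw [h3 v hv]
    exact hv

/-- The crystallized diagrams with at most `x` short chords. -/
def good (m : ℕ) (x : ℝ) : Set (Mat (Fin m)) := {M | Crystallized M ∧ (short M : ℝ) ≤ x}

lemma good_move {x : ℝ} {M : Mat (Fin m)} (hM : M ∈ good m x) {i j : Fin m}
    (hi : i ∈ ends M) (hij : j ∈ nbrs i) : move M i j ∈ good m x := by
  unfold move
  split_ifs with hj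
  · exact hM
  · obtain ⟨h1, h2, h3⟩ := conj_shortEnd hM.1 (mem_ends.1 hi) hj hij
    refine ⟨fun v hv => h2 v fun w hw1 hw2 => ?_, ?_⟩
    · rw [← h3]
      exact hv w hw1 hw2
    · have h4 : short (conj (Equiv.swap i j) M) = short M := by
        unfold short
        congr 1
        ext v
        rw [mem_filter, mem_filter]
        refine and_congr_right fun _ => ⟨fun h => ?_, fun h => ?_⟩
        · have := (h3 v).1 (Or.inl h)
          rwa [h1 v this] at h
        · rwa [h1 v (Or.inl h)]
      rw [h4]
      exact hM.2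

end basic

/-! ### The unstopped process -/

/-- The average of `f` over `s`. -/
noncomputable def avg {α : Type} (s : Finset α) (f : α → ℝ) : ℝ := (s.card : ℝ)⁻¹ * ∑ a ∈ s, f a

lemma avg_nonneg {α : Type} {s : Finset α} {f : α → ℝ} (h : ∀ a ∈ s, 0 ≤ f a) :
    0 ≤ avg s f := by
  unfold avg
  exact mul_nonneg (inv_nonneg.2 (Nat.cast_nonneg _)) (sum_nonneg h)

lemma avg_le {α : Type} {s : Finset α} {f : α → ℝ} (hs : s.Nonempty) {B : ℝ}
    (h : ∀ a ∈ s, f a ≤ B) : avg s f ≤ B := by
  unfold avg
  have h1 : (0 : ℝ) < s.card := by exact_mod_cast hs.card_pos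
  rw [inv_mul_le_iff₀ h1]
  refine (sum_le_sum h).trans ?_
  rw [sum_const, nsmul_eq_mul]

lemma avg_eq {α : Type} {s : Finset α} {f : α → ℝ} (hs : s.Nonempty) {B : ℝ}
    (h : ∀ a ∈ s, f a = B) : avg s f = B := by
  unfold avg
  have h1 : (0 : ℝ) < s.card := by exact_mod_cast hs.card_pos
  rw [sum_congr rfl h, sum_const, nsmul_eq_mul]
  field_simp

lemma sum_avg {α β : Type} (t : Finset β) (s : Finset α) (f : β → α → ℝ) :
    ∑ b ∈ t, avg s (f b) = avg s (fun a => ∑ b ∈ t, f b a) := by
  unfold avg
  rw [← mul_sum, sum_comm]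

open Classical in
/-- The probability that the unstopped process is in `A` at time `t`. -/
noncomputable def U {n : ℕ} (A : Set (Mat (Fin (2 * n)))) : ℕ → Mat (Fin (2 * n)) → ℝ
  | 0, M => if M ∈ A then 1 else 0
  | t + 1, M => if (ends M).Nonempty then
      avg (ends M) (fun i => avg (nbrs i) (fun j => U A t (move M i j))) else U A t M

lemma U_nonneg {n : ℕ} (A : Set (Mat (Fin (2 * n)))) (t : ℕ) (M : Mat (Fin (2 * n))) :
    0 ≤ U A t M := by
  induction t generalizing M with
  | zero =>
    unfold U
    split_ifs <;> norm_num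
  | succ t ih =>
    unfold U
    split_ifs
    · exact avg_nonneg fun i _ => avg_nonneg fun j _ => ih _
    · exact ih _

lemma U_good {n : ℕ} {x : ℝ} (t : ℕ) {M : Mat (Fin (2 * n))} (hM : M ∈ good (2 * n) x) :
    U (good (2 * n) x) t M = 1 := by
  induction t generalizing M with
  | zero =>
    unfold U
    rw [if_pos hM]
  | succ t ih =>
    unfold U
    split_ifs with h
    · exact avg_eq h fun i hi => avg_eq (nbrs_nonempty i) fun j hj => ih (good_move hM hi hj)
    · exact ih hM

open Classical in
lemma toOuterMeasure_uniform_bind {α β : Type} [Fintype α] (s : Finset α)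
    (hs : s.Nonempty) (g : α → PMF β) (A : Set β) :
    ((PMF.uniformOfFinset s hs).bind g).toOuterMeasure A =
      (s.card : ENNReal)⁻¹ * ∑ a ∈ s, (g a).toOuterMeasure A := by
  rw [PMF.toOuterMeasure_bind_apply, tsum_fintype, mul_sum]
  rw [← sum_subset (subset_univ s)]
  · refine sum_congr rfl fun a ha => ?_
    rw [PMF.uniformOfFinset_apply_of_mem _ ha]
  · intro a _ ha
    rw [PMF.uniformOfFinset_apply_of_notMem _ ha, zero_mul]

lemma ofReal_avg {α : Type} {s : Finset α} (hs : s.Nonempty) {f : α → ℝ}
    (hf : ∀ a ∈ s, 0 ≤ f a) :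
    ENNReal.ofReal (avg s f) = (s.card : ENNReal)⁻¹ * ∑ a ∈ s, ENNReal.ofReal (f a) := by
  unfold avg
  have h1 : (0 : ℝ) < s.card := by exact_mod_cast hs.card_pos
  rw [ENNReal.ofReal_mul (inv_nonneg.2 h1.le), ENNReal.ofReal_sum_of_nonneg hf,
    ENNReal.ofReal_inv_of_pos h1, ENNReal.ofReal_natCast]

/-- The stopped process is below the unstopped one. -/
lemma run_le {n : ℕ} {x : ℝ} (t : ℕ) (M : Mat (Fin (2 * n))) :
    (run t M).toOuterMeasure (good (2 * n) x) ≤ ENNReal.ofReal (U (good (2 * n) x) t M) := by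
  classical
  induction t generalizing M with
  | zero =>
    unfold run U
    rw [PMF.toOuterMeasure_pure_apply]
    split_ifs <;> simp
  | succ t ih =>
    unfold run
    split_ifs with hc
    · rw [PMF.toOuterMeasure_pure_apply]
      split_ifs with h
      · rw [U_good _ h]
        simp
      · exact zero_le
    · unfold U
      by_cases he : (ends M).Nonempty
      · rw [if_pos he]
        unfold step
        rw [dif_pos he, PMF.bind_bind, toOuterMeasure_uniform_bind,
          ofReal_avg he fun i _ => avg_nonneg fun j _ => U_nonneg _ _ _]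
        gcongr with i hi
        rw [PMF.bind_bind, toOuterMeasure_uniform_bind,
          ofReal_avg (nbrs_nonempty i) fun j _ => U_nonneg _ _ _]
        gcongr with j hj
        rw [PMF.pure_bind]
        exact ih _
      · rw [if_neg he]
        unfold step
        rw [dif_neg he, PMF.pure_bind]
        exact ih _

end Pool.Agent.Helper70K9.Cry
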