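import Pool.Agent.Helper70K9.Cry.XLow

/-!
# The process terminates almost surely
-/

set_option autoImplicit false

namespace Pool.Agent.Helper70K9.Cry

open Finset

/-! ### A crystallized diagram can be reached -/

section reachable

variable {m : ℕ}

/-- Exchanging two ends keeps the short chords. -/
lemma conj_keep {M : Mat (Fin m)} {i j : Fin m} (hi : ¬ ShortEnd M i) (hj : ¬ ShortEnd M j)
    (v : Fin m) (hv : ShortEnd M v) : (conj (Equiv.swap i j) M).1 v = M.1 v := by
  have hvi : v ≠ i := fun h => hi (h ▸ hv)
  have hvj : v ≠ j := fun h => hj (h ▸ hv)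
  have hv' : ShortEnd M (M.1 v) := shortEnd_partner.2 hv
  have hvi' : M.1 v ≠ i := fun h => hi (h ▸ hv')
  have hvj' : M.1 v ≠ j := fun h => hj (h ▸ hv')
  rw [conj_val, Equiv.symm_swap, Equiv.swap_apply_of_ne_of_ne hvi hvj,
    Equiv.swap_apply_of_ne_of_ne hvi' hvj']

lemma shortEnd_of_le {M N : Mat (Fin m)} (h : ∀ v, ShortEnd M v → N.1 v = M.1 v)
    (hs : short N ≤ short M) (v : Fin m) (hv : ShortEnd N v) : ShortEnd M v := by
  have hsub : univ.filter (fun v : Fin m => (M.1 v).val = v.val + 1) ⊆
      univ.filter (fun v : Fin m => (N.1 v).val = v.val + 1) := by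
    intro u hu
    rw [mem_filter] at hu ⊢
    exact ⟨hu.1, by rw [h u (Or.inl hu.2)]; exact hu.2⟩
  have heq := eq_of_subset_of_card_le hsub hs
  have hst : ∀ u, (N.1 u).val = u.val + 1 → (M.1 u).val = u.val + 1 := by
    intro u hu
    have : u ∈ univ.filter (fun v : Fin m => (N.1 v).val = v.val + 1) := by
      rw [mem_filter]
      exact ⟨mem_univ _, hu⟩
    rw [← heq, mem_filter] at this
    exact this.2
  rcases hv with hv | hv
  · exact Or.inl (hst v hv)
  · have h1 : (N.1 (N.1 v)).val = (N.1 v).val + 1 := by rw [N.2.1, hv]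
    have h2 := hst _ h1
    have h3 : M.1 (N.1 v) = v := Fin.ext (by rw [h2, hv])
    have h4 : M.1 v = N.1 v := by rw [← h3, M.2.1, h3]
    right
    rw [h4]
    exact hv

lemma exists_cryst (S : Set (Mat (Fin m))) (hne : S.Nonempty)
    (hS : ∀ M ∈ S, ¬ Crystallized M → ∀ i ∈ ends M, ∀ j ∈ nbrs i, move M i j ∈ S) :
    ∃ M ∈ S, Crystallized M := by
  by_contra hcon
  push Not at hcon
  obtain ⟨M1, hM1, hmax⟩ := Set.exists_max_image S short (Set.toFinite S) hne
  have key : ∀ (d : ℕ) (M : Mat (Fin m)), M ∈ S → short M = short M1 → ∀ v : Fin m,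
      SameBubble M v (M.1 v) → v.val + d = (M.1 v).val → False := by
    intro d
    induction d with
    | zero =>
      intro M _ _ v _ hd
      exact M.2.2 v (Fin.ext (by omega))
    | succ d ih =>
      intro M hM hs v hv hd
      have hv1 : ¬ ShortEnd M v := hv v (min_le_left _ _) (le_max_left _ _)
      have hlt : v.val + 1 < (M.1 v).val := by
        have : ¬ (M.1 v).val = v.val + 1 := fun h => hv1 (Or.inl h)
        omega
      have hlt2 : v.val + 1 < m := by
        have := (M.1 v).2
        omega
      set j : Fin m := ⟨v.val + 1, hlt2⟩ with hj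
      have hjv : j ∈ nbrs v := by
        rw [mem_nbrs]
        exact Or.inl rfl
      have hmin : min v (M.1 v) = v := min_eq_left (by rw [Fin.le_def]; omega)
      have hmax' : max v (M.1 v) = M.1 v := max_eq_right (by rw [Fin.le_def]; omega)
      have hj1 : ¬ ShortEnd M j := by
        apply hv j
        · rw [hmin, Fin.le_def, hj]
          simp only
          omega
        · rw [hmax', Fin.le_def, hj]
          simp only
          omega
      have hmem := hS M hM (hcon M hM) v (mem_ends.2 hv1) j hjv
      unfold move at hmem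
      rw [if_neg hj1] at hmem
      set N := conj (Equiv.swap v j) M with hN
      have hkeep : ∀ u, ShortEnd M u → N.1 u = M.1 u := conj_keep hv1 hj1
      have hle : short N ≤ short M := by
        rw [hs]
        exact hmax N hmem
      have hge : short M ≤ short N := by
        unfold short
        refine card_le_card fun u hu => ?_
        rw [mem_filter] at hu ⊢
        exact ⟨hu.1, by rw [hkeep u (Or.inl hu.2)]; exact hu.2⟩
      have hse := shortEnd_of_le hkeep hle
      have hNj : N.1 j = M.1 v := by
        rw [hN, conj_val, Equiv.symm_swap, Equiv.swap_apply_right]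
        apply Equiv.swap_apply_of_ne_of_ne (M.2.2 v)
        intro h
        have := congrArg Fin.val h
        rw [hj] at this
        simp only at this
        omega
      refine ih N hmem (by omega) j ?_ ?_
      · intro w hw1 hw2 hw3
        refine hv w ?_ ?_ (hse w hw3)
        · rw [hNj] at hw1
          rw [hmin]
          rw [min_le_iff, Fin.le_def, Fin.le_def] at hw1
          rw [Fin.le_def]
          simp only [hj] at hw1
          omega
        · rw [hNj] at hw2
          rw [hmax']
          rw [le_max_iff, Fin.le_def, Fin.le_def] at hw2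
          rw [Fin.le_def]
          simp only [hj] at hw2
          omega
      · rw [hNj]
        simp only [hj]
        omega
  have h1 := hcon M1 hM1
  unfold Crystallized at h1
  push Not at h1
  obtain ⟨v, hv⟩ := h1
  rcases le_total v.val (M1.1 v).val with h | h
  · exact key ((M1.1 v).val - v.val) M1 hM1 rfl v hv (by omega)
  · refine key (v.val - (M1.1 v).val) M1 hM1 rfl (M1.1 v) ?_ ?_
    · rw [M1.2.1]
      exact sameBubble_symm hv
    · rw [M1.2.1]
      omega

end reachable

/-! ### The probability of termination -/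

section term

variable {n : ℕ}

/-- The probability that the process is crystallized at time `t`. -/
noncomputable def f (t : ℕ) (M : Mat (Fin (2 * n))) : ENNReal :=
  (run t M).toOuterMeasure {M | Crystallized M}

lemma f_of_cryst (t : ℕ) {M : Mat (Fin (2 * n))} (h : Crystallized M) : f t M = 1 := by
  classical
  unfold f
  cases t with
  | zero =>
    unfold run
    rw [PMF.toOuterMeasure_pure_apply, if_pos (show M ∈ {M | Crystallized M} from h)]
  | succ t =>
    unfold run
    rw [if_pos h, PMF.toOuterMeasure_pure_apply, if_pos (show M ∈ {M | Crystallized M} from h)]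

lemma f_succ (t : ℕ) {M : Mat (Fin (2 * n))} (h : ¬ Crystallized M) (he : (ends M).Nonempty) :
    f (t + 1) M = ((ends M).card : ENNReal)⁻¹ * ∑ i ∈ ends M,
      ((nbrs i).card : ENNReal)⁻¹ * ∑ j ∈ nbrs i, f t (move M i j) := by
  classical
  unfold f
  conv_lhs => unfold run
  rw [if_neg h]
  unfold step
  rw [dif_pos he, PMF.bind_bind, toOuterMeasure_uniform_bind]
  congr 1
  refine sum_congr rfl fun i _ => ?_
  rw [PMF.bind_bind, toOuterMeasure_uniform_bind]
  congr 1
  refine sum_congr rfl fun j _ => ?_
  rw [PMF.pure_bind]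

lemma ends_nonempty {M : Mat (Fin (2 * n))} (h : ¬ Crystallized M) : (ends M).Nonempty := by
  unfold Crystallized at h
  push Not at h
  obtain ⟨v, hv⟩ := h
  exact ⟨v, mem_ends.2 (hv v (min_le_left _ _) (le_max_left _ _))⟩

lemma f_mono (M : Mat (Fin (2 * n))) : Monotone (fun t => f t M) := by
  apply monotone_nat_of_le_succ
  intro t
  induction t generalizing M with
  | zero =>
    by_cases h : Crystallized M
    · rw [f_of_cryst _ h, f_of_cryst _ h]
    · have : f 0 M = 0 := by
        classical
        unfold f run
        rw [PMF.toOuterMeasure_pure_apply, if_neg (show ¬ M ∈ {M | Crystallized M} from h)]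
      rw [this]
      exact zero_le
  | succ t ih =>
    by_cases h : Crystallized M
    · rw [f_of_cryst _ h, f_of_cryst _ h]
    · have he := ends_nonempty h
      rw [f_succ _ h he, f_succ _ h he]
      gcongr
      exact ih _

/-- The probability of termination. -/
noncomputable def g (M : Mat (Fin (2 * n))) : ENNReal := ⨆ t, f t M

lemma f_le_one (t : ℕ) (M : Mat (Fin (2 * n))) : f t M ≤ 1 := by
  unfold f
  have h := (run t M).toOuterMeasure_apply {M | Crystallized M}
  rw [h]
  calc ∑' x, Set.indicator {M | Crystallized M} (run t M) x ≤ ∑' x, run t M x := by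
        apply ENNReal.tsum_le_tsum
        intro x
        exact Set.indicator_le_self _ _ x
    _ = 1 := PMF.tsum_coe _

lemma g_le_one (M : Mat (Fin (2 * n))) : g M ≤ 1 := iSup_le fun t => f_le_one t M

lemma g_of_cryst {M : Mat (Fin (2 * n))} (h : Crystallized M) : g M = 1 := by
  unfold g
  simp only [f_of_cryst _ h]
  exact ciSup_const

lemma g_harm {M : Mat (Fin (2 * n))} (h : ¬ Crystallized M) :
    g M = ((ends M).card : ENNReal)⁻¹ * ∑ i ∈ ends M,
      ((nbrs i).card : ENNReal)⁻¹ * ∑ j ∈ nbrs i, g (move M i j) := by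
  have he := ends_nonempty h
  have h1 : g M = ⨆ t, f (t + 1) M := by
    unfold g
    exact ((f_mono M).iSup_nat_add 1).symm
  rw [h1]
  simp only [f_succ _ h he]
  rw [← ENNReal.mul_iSup, ← ENNReal.finsetSum_iSup_of_monotone]
  · congr 1
    refine sum_congr rfl fun i _ => ?_
    rw [← ENNReal.mul_iSup, ← ENNReal.finsetSum_iSup_of_monotone]
    · rfl
    · intro j
      exact f_mono _
  · intro i s t hst
    simp only
    gcongr with j _
    exact f_mono _ hst

lemma avg_min {α : Type} {s : Finset α} {f : α → ℝ} (hs : s.Nonempty) {B : ℝ}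
    (h : ∀ a ∈ s, B ≤ f a) (h2 : avg s f = B) : ∀ a ∈ s, f a = B := by
  have h1 : (0 : ℝ) < s.card := by exact_mod_cast hs.card_pos
  unfold avg at h2
  have h3 : ∑ a ∈ s, (f a - B) = 0 := by
    rw [sum_sub_distrib, sum_const, nsmul_eq_mul, ← h2]
    field_simp
    ring
  have h4 := (sum_eq_zero_iff_of_nonneg fun a ha => sub_nonneg.2 (h a ha)).1 h3
  intro a ha
  have := h4 a ha
  linarith

lemma g_eq_one (M : Mat (Fin (2 * n))) : g M = 1 := by
  classical
  have hfin : ∀ M : Mat (Fin (2 * n)), g M ≠ ⊤ := fun M =>
    ne_top_of_le_ne_top ENNReal.one_ne_top (g_le_one M)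
  obtain ⟨M0, -, hmin⟩ := exists_min_image (univ : Finset (Mat (Fin (2 * n))))
    (fun M => (g M).toReal) univ_nonempty
  obtain ⟨M1, hM1, hc⟩ := exists_cryst {M : Mat (Fin (2 * n)) | (g M).toReal = (g M0).toReal}
    ⟨M0, rfl⟩ (by
      intro M hM hcr i hi j hj
      have he := ends_nonempty hcr
      have h1 : (g M).toReal =
          avg (ends M) (fun i => avg (nbrs i) (fun j => (g (move M i j)).toReal)) := by
        rw [g_harm hcr]
        unfold avg
        rw [ENNReal.toReal_mul, ENNReal.toReal_inv, ENNReal.toReal_natCast,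
          ENNReal.toReal_sum]
        · congr 1
          refine sum_congr rfl fun i _ => ?_
          rw [ENNReal.toReal_mul, ENNReal.toReal_inv, ENNReal.toReal_natCast,
            ENNReal.toReal_sum fun j _ => hfin _]
        · intro i _
          apply ENNReal.mul_ne_top
          · rw [ENNReal.inv_ne_top]
            exact_mod_cast (nbrs_nonempty i).card_pos.ne'
          · exact ENNReal.sum_ne_top.2 fun j _ => hfin _
      have hB : ∀ M : Mat (Fin (2 * n)), (g M0).toReal ≤ (g M).toReal :=
        fun M => hmin M (mem_univ _)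
      have hM' : (g M).toReal = (g M0).toReal := hM
      rw [h1] at hM'
      have hge : ∀ i ∈ ends M, (g M0).toReal ≤
          avg (nbrs i) (fun j => (g (move M i j)).toReal) := by
        intro i _
        unfold avg
        have h2 : (0 : ℝ) < (nbrs i).card := by exact_mod_cast (nbrs_nonempty i).card_pos
        rw [le_inv_mul_iff₀ h2, ← nsmul_eq_mul, ← sum_const]
        exact sum_le_sum fun j _ => hB _
      have h2 := avg_min he hge hM' i hi
      exact avg_min (nbrs_nonempty i) (fun j _ => hB _) h2 j hj)
  have h1 : (g M0).toReal = 1 := by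
    have : (g M1).toReal = (g M0).toReal := hM1
    rw [← this, g_of_cryst hc]
    rfl
  have h2 : 1 ≤ (g M).toReal := by
    rw [← h1]
    exact hmin M (mem_univ _)
  apply le_antisymm (g_le_one M)
  rw [← ENNReal.ofReal_toReal (hfin M)]
  exact ENNReal.one_le_ofReal.2 h2

/-- **The process terminates almost surely.** -/
theorem reach_cryst (n : ℕ) : reach n {M | Crystallized M} = 1 := by
  unfold reach PMF.uniformOfFintype
  have h1 : ∀ t : ℕ, ((PMF.uniformOfFinset (univ : Finset (Mat (Fin (2 * n)))) univ_nonempty).bind
      (run t)).toOuterMeasure {M | Crystallized M} =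
      ((univ : Finset (Mat (Fin (2 * n)))).card : ENNReal)⁻¹ *
        ∑ M : Mat (Fin (2 * n)), f t M := by
    intro t
    rw [toOuterMeasure_uniform_bind]
    rfl
  simp only [h1]
  rw [← ENNReal.mul_iSup, ← ENNReal.finsetSum_iSup_of_monotone fun M => f_mono M]
  have h2 : ∀ M ∈ (univ : Finset (Mat (Fin (2 * n)))), ⨆ t, f t M = 1 := fun M _ => g_eq_one M
  rw [sum_congr rfl h2, sum_const, nsmul_eq_mul, mul_one]
  apply ENNReal.inv_mul_cancel
  · exact_mod_cast univ_nonempty.card_pos.ne'
  · exact ENNReal.natCast_ne_top _

end term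

end Pool.Agent.Helper70K9.Cry
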