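import Pool.Agent.Helper70K9.Cry.Pot

/-!
# The process seldom ends with few short chords
-/

set_option autoImplicit false

namespace Pool.Agent.Helper70K9.Cry

open Finset

open Nat in
lemma df_succ (n : ℕ) : (2 * (n + 1) - 1)‼ = (2 * n + 1) * (2 * n - 1)‼ := by
  rcases Nat.eq_zero_or_pos n with rfl | hn0
  · simp
  · obtain ⟨k, rfl⟩ : ∃ k, n = k + 1 := ⟨n - 1, by omega⟩
    rw [show 2 * (k + 1 + 1) - 1 = (2 * k + 1) + 2 by omega,
      show 2 * (k + 1) - 1 = 2 * k + 1 by omega, Nat.doubleFactorial_add_two,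
      show 2 * k + 1 + 2 = 2 * (k + 1) + 1 by ring]

open Nat in
lemma df_lower (n k : ℕ) (hk : 2 * k ≤ n) : n ^ k * (2 * (n - k) - 1)‼ ≤ (2 * n - 1)‼ := by
  induction k with
  | zero => simp
  | succ k ih =>
    have h1 := ih (by omega)
    have h2 : n - k = (n - (k + 1)) + 1 := by omega
    rw [h2, df_succ] at h1
    refine le_trans ?_ h1
    rw [pow_succ, mul_assoc]
    apply Nat.mul_le_mul_left
    apply Nat.mul_le_mul_right
    omega

open Nat in
lemma df_upper (n k : ℕ) (hk : k ≤ n) : (2 * n - 1)‼ ≤ (2 * n) ^ k * (2 * (n - k) - 1)‼ := by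
  induction k with
  | zero => simp
  | succ k ih =>
    have h1 := ih (by omega)
    have h2 : n - k = (n - (k + 1)) + 1 := by omega
    rw [h2, df_succ] at h1
    refine le_trans h1 ?_
    rw [pow_succ, mul_assoc]
    apply Nat.mul_le_mul_left
    apply Nat.mul_le_mul_right
    omega

lemma df_pos (n : ℕ) : (0 : ℝ) < (Nat.doubleFactorial n : ℕ) := by
  exact_mod_cast Nat.doubleFactorial_pos n

lemma sixteen_le : (16 : ℝ) ≤ Real.exp 3 := by
  have h1 : Real.exp 3 = Real.exp 1 ^ 3 := by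
    rw [← Real.exp_nat_mul]
    norm_num
  have h2 := Real.exp_one_gt_d9
  rw [h1]
  have h3 : (2.7 : ℝ) ≤ Real.exp 1 := by linarith
  calc (16 : ℝ) ≤ 2.7 ^ 3 := by norm_num
    _ ≤ _ := pow_le_pow_left₀ (by norm_num) h3 3

lemma one_sub_exp_ge {y : ℝ} (h0 : 0 ≤ y) (h1 : y ≤ 1) : y / 2 ≤ 1 - Real.exp (-y) := by
  have h2 : 0 < 1 + y := by linarith
  have h3 := Real.add_one_le_exp y
  have h4 : Real.exp (-y) ≤ 1 / (1 + y) := by
    rw [Real.exp_neg, ← one_div]
    apply one_div_le_one_div_of_le h2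
    linarith
  have h5 : y / 2 ≤ 1 - 1 / (1 + y) := by
    rw [show 1 - 1 / (1 + y) = y / (1 + y) by field_simp; ring]
    exact div_le_div_of_nonneg_left h0 h2 (by linarith)
  linarith

/-- The bound for the probability. -/
noncomputable def bnd (n : ℕ) (x : ℝ) : ℝ := Real.exp (1 / 8 + 7 / 2 * x - 9 / 64 * (n / (x + 1)))

open Nat in
/-- The estimate for complete states. -/
lemma base_bound {n : ℕ} (hn : 0 < n) {x : ℝ} (hx0 : 0 ≤ x) (hx : 4 * x ≤ n)
    (Y F : Finset (Sym2 (Fin (2 * n)))) (hY : IsPart Y) (hYa : Y ⊆ adjs (2 * n))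
    (hF : ∀ e ∈ F, ¬ e.IsDiag) (hk : (Y.card : ℝ) ≤ x) :
    cnt Y (F ∪ inner Y) ≤ ((2 * n - 1)‼ : ℕ) * bnd n x *
      (1 - Real.exp (-(1 / (8 * n)))) ^ Y.card *
      (1 - (1 - Real.exp (-(1 / (8 * n))))) ^ F.card := by
  set k := Y.card with hkdef
  have hn' : (0 : ℝ) < n := by exact_mod_cast hn
  have hk4 : 4 * k ≤ n := by
    have : (4 : ℝ) * k ≤ n := by linarith
    exact_mod_cast this
  have hN := card_unc hY
  rw [Fintype.card_fin, ← hkdef] at hN
  have hN2 : (unc Y).card = 2 * (n - k) := by omega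
  have h1 := cnt_le (F := F ∪ inner Y) (c := 1 / (4 * n)) (by positivity) hY (n - k) hN2 (by
    have h : ((n - k : ℕ) : ℝ) ≤ n := by exact_mod_cast Nat.sub_le _ _
    have h2 : 2 * (1 / (4 * (n : ℝ))) * (2 * ((n - k : ℕ) : ℝ) - 1) ≤
        2 * (1 / (4 * (n : ℝ))) * (2 * n) := by
      apply mul_le_mul_of_nonneg_left _ (by positivity)
      linarith
    refine h2.trans (le_of_eq ?_)
    field_simp
    norm_num)
  refine h1.trans ?_
  set J := (inn (unc Y) (F ∪ inner Y)).card with hJ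
  have hJ1 : (inn (unc Y) F).card ≤ J := card_le_card (inn_mono subset_union_left)
  have hJ2 : (inner Y).card ≤ J :=
    (card_le_card (inner_inn Y)).trans (card_le_card (inn_mono subset_union_right))
  have hF1 := card_le_inn (unc Y) F hF
  have hF2 : F.card ≤ J + 2 * k * (2 * n) := by
    have : 2 * n - (unc Y).card = 2 * k := by omega
    rw [this] at hF1
    omega
  have hI := card_inner hYa
  rw [← hkdef] at hI
  have hF2' : (F.card : ℝ) ≤ J + 4 * k * n := by
    have : (F.card : ℝ) ≤ (J : ℝ) + 2 * k * (2 * n) := by exact_mod_cast hF2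
    linarith
  have hI' : ((unc Y).card : ℝ) ^ 2 ≤ (k + 1) * (2 * J + (unc Y).card) := by
    have h2 : (((unc Y).card ^ 2 : ℕ) : ℝ) ≤
        ((k + 1) * (2 * (inner Y).card + (unc Y).card) : ℕ) := by exact_mod_cast hI
    push_cast at h2
    refine h2.trans ?_
    apply mul_le_mul_of_nonneg_left _ (by positivity)
    have : ((inner Y).card : ℝ) ≤ J := by exact_mod_cast hJ2
    linarith
  have hNr : ((unc Y).card : ℝ) = 2 * n - 2 * k := by
    have : ((unc Y).card : ℝ) + 2 * k = 2 * n := by exact_mod_cast hN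
    linarith
  -- the lower bound for `J`
  have hJ3 : 9 / 64 * (n / (x + 1)) - 1 / 8 ≤ 1 / (8 * n) * J := by
    have hxk : (k : ℝ) + 1 ≤ x + 1 := by linarith
    have hk0 : (0 : ℝ) < k + 1 := by positivity
    have h2 : ((9 : ℝ) / 4 * n ^ 2) ≤ ((unc Y).card : ℝ) ^ 2 := by
      rw [hNr]
      have h3 : (3 : ℝ) / 2 * n ≤ 2 * n - 2 * k := by linarith
      calc (9 : ℝ) / 4 * n ^ 2 = (3 / 2 * n) ^ 2 := by ring
        _ ≤ _ := pow_le_pow_left₀ (by positivity) h3 2
    have h3 : (9 : ℝ) / 4 * n ^ 2 ≤ (k + 1) * (2 * J + 2 * n) := by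
      refine h2.trans (hI'.trans ?_)
      apply mul_le_mul_of_nonneg_left _ hk0.le
      rw [hNr]
      have : (0 : ℝ) ≤ k := Nat.cast_nonneg _
      linarith
    have h4 : (9 : ℝ) / 64 * (n / (k + 1)) ≤ 1 / (8 * n) * J + 1 / 8 := by
      have h5 : (9 : ℝ) / 4 * n ^ 2 / (k + 1) ≤ 2 * J + 2 * n := by
        rw [div_le_iff₀ hk0]
        linarith
      have h6 : (9 : ℝ) / 64 * (n / (k + 1)) = (9 / 4 * n ^ 2 / (k + 1)) * (1 / (16 * n)) := by
        field_simp
        norm_num
      rw [h6]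
      calc (9 / 4 * (n : ℝ) ^ 2 / (k + 1)) * (1 / (16 * n)) ≤ (2 * J + 2 * n) * (1 / (16 * n)) :=
            mul_le_mul_of_nonneg_right h5 (by positivity)
        _ = 1 / (8 * n) * J + 1 / 8 := by
            field_simp
            ring
    have h5 : (n : ℝ) / (x + 1) ≤ n / (k + 1) := div_le_div_of_nonneg_left hn'.le hk0 hxk
    linarith
  have hexpJ : Real.exp (-(1 / (4 * n) * J)) ≤
      Real.exp (1 / 8 + (k : ℝ) / 2 - 9 / 64 * (n / (x + 1))) *
      Real.exp (-(1 / (8 * n))) ^ F.card := by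
    rw [← Real.exp_nat_mul, ← Real.exp_add]
    apply Real.exp_le_exp.2
    have h2 : (F.card : ℝ) * -(1 / (8 * n)) ≥ -(1 / (8 * n) * J) - k / 2 := by
      have h3 : 1 / (8 * (n : ℝ)) * F.card ≤ 1 / (8 * n) * (J + 4 * k * n) :=
        mul_le_mul_of_nonneg_left hF2' (by positivity)
      have h4 : 1 / (8 * (n : ℝ)) * (J + 4 * k * n) = 1 / (8 * n) * J + k / 2 := by
        field_simp
        ring
      linarith
    have h5 : 1 / (4 * (n : ℝ)) * J = 1 / (8 * n) * J + 1 / (8 * n) * J := by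
      field_simp
      ring
    linarith
  have hθ : 1 / (16 * (n : ℝ)) ≤ 1 - Real.exp (-(1 / (8 * n))) := by
    have h2 := one_sub_exp_ge (y := 1 / (8 * (n : ℝ))) (by positivity) (by
      rw [div_le_one (by positivity)]
      have : (1 : ℝ) ≤ n := by exact_mod_cast hn
      linarith)
    calc 1 / (16 * (n : ℝ)) = 1 / (8 * n) / 2 := by
          field_simp
          norm_num
      _ ≤ _ := h2
  have hθk : (1 / (16 * (n : ℝ))) ^ k ≤ (1 - Real.exp (-(1 / (8 * n)))) ^ k :=
    pow_le_pow_left₀ (by positivity) hθ k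
  have hdf : (n : ℝ) ^ k * ((2 * (n - k) - 1)‼ : ℕ) ≤ ((2 * n - 1)‼ : ℕ) := by
    exact_mod_cast df_lower n k (by omega)
  have h16 : (16 : ℝ) ^ k ≤ Real.exp (3 * k) := by
    calc (16 : ℝ) ^ k ≤ Real.exp 3 ^ k := pow_le_pow_left₀ (by norm_num) sixteen_le k
      _ = _ := by rw [← Real.exp_nat_mul]; ring_nf
  have hkey : ((2 * (n - k) - 1)‼ : ℕ) * Real.exp (1 / 8 + (k : ℝ) / 2 - 9 / 64 * (n / (x + 1))) ≤
      ((2 * n - 1)‼ : ℕ) * bnd n x * (1 - Real.exp (-(1 / (8 * n)))) ^ k := by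
    calc ((2 * (n - k) - 1)‼ : ℕ) * Real.exp (1 / 8 + (k : ℝ) / 2 - 9 / 64 * (n / (x + 1)))
        = (n : ℝ) ^ k * ((2 * (n - k) - 1)‼ : ℕ) *
          (16 ^ k * Real.exp (1 / 8 + (k : ℝ) / 2 - 9 / 64 * (n / (x + 1)))) *
          (1 / (16 * (n : ℝ))) ^ k := by
          rw [div_pow, one_pow, mul_pow]
          field_simp
      _ ≤ ((2 * n - 1)‼ : ℕ) * bnd n x * (1 - Real.exp (-(1 / (8 * n)))) ^ k := by
          apply mul_le_mul _ hθk (by positivity)
          · unfold bnd
            positivity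
          · apply mul_le_mul hdf _ (by positivity) (by positivity)
            unfold bnd
            calc 16 ^ k * Real.exp (1 / 8 + (k : ℝ) / 2 - 9 / 64 * (n / (x + 1)))
                ≤ Real.exp (3 * k) * Real.exp (1 / 8 + (k : ℝ) / 2 - 9 / 64 * (n / (x + 1))) :=
                  mul_le_mul_of_nonneg_right h16 (Real.exp_pos _).le
              _ = Real.exp (3 * k + (1 / 8 + (k : ℝ) / 2 - 9 / 64 * (n / (x + 1)))) :=
                  (Real.exp_add _ _).symm
              _ ≤ _ := by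
                  apply Real.exp_le_exp.2
                  linarith
  calc ((2 * (n - k) - 1)‼ : ℕ) * Real.exp (-(1 / (4 * n) * J))
      ≤ ((2 * (n - k) - 1)‼ : ℕ) * (Real.exp (1 / 8 + (k : ℝ) / 2 - 9 / 64 * (n / (x + 1))) *
        Real.exp (-(1 / (8 * n))) ^ F.card) :=
        mul_le_mul_of_nonneg_left hexpJ (Nat.cast_nonneg _)
    _ = (((2 * (n - k) - 1)‼ : ℕ) * Real.exp (1 / 8 + (k : ℝ) / 2 - 9 / 64 * (n / (x + 1)))) *
        Real.exp (-(1 / (8 * n))) ^ F.card := by ring
    _ ≤ _ := by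
        rw [show (1 : ℝ) - (1 - Real.exp (-(1 / (8 * n)))) = Real.exp (-(1 / (8 * n))) by ring]
        exact mul_le_mul_of_nonneg_right hkey (by positivity)

lemma cons_empty {V : Type} [Fintype V] [DecidableEq V] :
    cons (∅ : Finset (Sym2 V)) ∅ = univ := by
  ext M
  simp [mem_cons]

open Nat in
lemma card_mat (n : ℕ) : Fintype.card (Mat (Fin (2 * n))) = (2 * n - 1)‼ := by
  have h1 := cnt_empty (V := Fin (2 * n)) isPart_empty n (by
    have := card_unc (V := Fin (2 * n)) isPart_empty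
    rw [Fintype.card_fin] at this
    simpa using this)
  unfold cnt at h1
  rw [cons_empty] at h1
  exact_mod_cast h1

instance instNonemptyMat {n : ℕ} : Nonempty (Mat (Fin (2 * n))) := by
  rw [← Fintype.card_pos_iff, card_mat]
  exact Nat.doubleFactorial_pos _

open Nat in
/-- **The unstopped process.** -/
lemma sum_U_le {n : ℕ} (hn : 0 < n) {x : ℝ} (hx0 : 0 ≤ x) (hx : 4 * x ≤ n) (t : ℕ) :
    ∑ M : Mat (Fin (2 * n)), U (good (2 * n) x) t M ≤ ((2 * n - 1)‼ : ℕ) * bnd n x := by
  classical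
  have h := potential (good (2 * n) x) (((2 * n - 1)‼ : ℕ) * bnd n x)
    (1 - Real.exp (-(1 / (8 * n)))) (by
      intro Y F hY hYa hF hc
      by_cases hk : (Y.card : ℝ) ≤ x
      · refine le_trans ?_ (base_bound hn hx0 hx Y F hY hYa hF hk)
        unfold cnt
        have h1 : ∀ M ∈ cons Y F, U (good (2 * n) x) 0 M ≤
            if M ∈ cons Y (F ∪ inner Y) then (1 : ℝ) else 0 := by
          intro M hM
          unfold U
          by_cases hg : M ∈ good (2 * n) x
          · rw [if_pos hg, if_pos (cryst_avoid hYa hc hM hg.1)]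
          · rw [if_neg hg]
            split_ifs <;> norm_num
        refine (sum_le_sum h1).trans ?_
        rw [sum_ite_mem, sum_const, nsmul_eq_mul, mul_one]
        exact_mod_cast card_le_card inter_subset_right
      · have h1 : ∀ M ∈ cons Y F, U (good (2 * n) x) 0 M = 0 := by
          intro M hM
          unfold U
          rw [if_neg]
          intro hg
          apply hk
          have h2 : (Y.card : ℝ) ≤ short M := by exact_mod_cast card_le_short hYa hM
          exact h2.trans hg.2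
        rw [sum_eq_zero h1]
        have hθ : 0 ≤ 1 - Real.exp (-(1 / (8 * (n : ℝ)))) := by
          have : Real.exp (-(1 / (8 * (n : ℝ)))) ≤ 1 := by
            rw [Real.exp_le_one_iff, neg_nonpos]
            positivity
          linarith
        have hθ' : 0 ≤ 1 - (1 - Real.exp (-(1 / (8 * (n : ℝ))))) := by
          rw [show (1 : ℝ) - (1 - Real.exp (-(1 / (8 * n)))) = Real.exp (-(1 / (8 * n))) by ring]
          positivity
        unfold bnd
        positivity) t ∅ ∅ isPart_empty (empty_subset _) (by simp)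
  rw [cons_empty] at h
  simpa using h

/-- The probability that the process, started from a uniform diagram and stopped when
crystallized, has reached a diagram of `A` at some time. -/
noncomputable def reach (n : ℕ) (A : Set (Mat (Fin (2 * n)))) : ENNReal :=
  ⨆ t : ℕ, ((PMF.uniformOfFintype (Mat (Fin (2 * n)))).bind (run t)).toOuterMeasure A

open Nat in
theorem reach_le {n : ℕ} (hn : 0 < n) {x : ℝ} (hx0 : 0 ≤ x) (hx : 4 * x ≤ n) :
    reach n (good (2 * n) x) ≤ ENNReal.ofReal (bnd n x) := by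
  unfold reach
  apply iSup_le
  intro t
  unfold PMF.uniformOfFintype
  rw [toOuterMeasure_uniform_bind]
  have h1 : (univ.card (α := Mat (Fin (2 * n))) : ENNReal)⁻¹ *
      ∑ M : Mat (Fin (2 * n)), (run t M).toOuterMeasure (good (2 * n) x) ≤
      ENNReal.ofReal (avg univ (U (good (2 * n) x) t)) := by
    rw [ofReal_avg univ_nonempty fun M _ => U_nonneg _ _ _]
    gcongr with M _
    exact run_le t M
  refine h1.trans (ENNReal.ofReal_le_ofReal ?_)
  unfold avg
  rw [Finset.card_univ, card_mat, inv_mul_le_iff₀ (df_pos _)]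
  exact sum_U_le hn hx0 hx t

end Pool.Agent.Helper70K9.Cry
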