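import Pool.Agent.Helper70K9.Cry.XLow

/-!
# The uniform crystallized diagram has few short chords
-/

set_option autoImplicit false

namespace Pool.Agent.Helper70K9.Cry

open Finset

/-! ### Many short chords are rare -/

section many

variable {m : ℕ}

/-- The diagrams whose vertices in `S` start short chords. -/
def startSet (S : Finset (Fin m)) : Finset (Mat (Fin m)) :=
  univ.filter (fun M => ∀ a ∈ S, (M.1 a).val = a.val + 1)

open Nat in
lemma card_startSet_le {n : ℕ} (S : Finset (Fin (2 * n))) :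
    ((startSet S).card : ℝ) ≤ ((2 * (n - S.card) - 1)‼ : ℕ) := by
  classical
  by_cases hne : (startSet S).Nonempty
  · obtain ⟨M0, hM0⟩ := hne
    have h0 : ∀ a ∈ S, (M0.1 a).val = a.val + 1 := by
      unfold startSet at hM0
      rw [mem_filter] at hM0
      exact hM0.2
    set Y : Finset (Sym2 (Fin (2 * n))) := S.image (fun a => s(a, M0.1 a)) with hY
    have hpart : IsPart Y := by
      constructor
      · intro e he
        rw [hY, mem_image] at he
        obtain ⟨a, -, rfl⟩ := he
        rw [Sym2.mk_isDiag_iff]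
        exact (M0.2.2 a).symm
      · intro e he f hf v hve hvf
        rw [hY, mem_image] at he hf
        obtain ⟨a, -, rfl⟩ := he
        obtain ⟨b, -, rfl⟩ := hf
        exact has_unique (M := M0) ⟨a, rfl⟩ ⟨b, rfl⟩ hve hvf
    have hcard : Y.card = S.card := by
      rw [hY]
      apply Finset.card_image_of_injOn
      intro a ha b hb hab
      rcases Sym2.eq_iff.1 hab with h | h
      · exact h.1
      · exfalso
        have h1 := h0 a ha
        have h2 := h0 b hb
        have h3 := congrArg Fin.val h.1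
        have h4 := congrArg Fin.val h.2
        omega
    have hunc := card_unc hpart
    rw [Fintype.card_fin, hcard] at hunc
    have h1 := cnt_empty hpart (n - S.card) (by omega)
    rw [← h1]
    unfold cnt
    refine Nat.cast_le.2 (card_le_card ?_)
    intro M hM
    rw [mem_cons]
    refine ⟨fun e he => ?_, fun e he => absurd he (notMem_empty _)⟩
    rw [hY, mem_image] at he
    obtain ⟨a, ha, rfl⟩ := he
    rw [has_mk]
    unfold startSet at hM
    rw [mem_filter] at hM
    rw [Fin.ext_iff, hM.2 a ha, h0 a ha]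
  · rw [not_nonempty_iff_eq_empty] at hne
    rw [hne]
    simp

open Nat in
lemma many_le {n k : ℕ} (hk : 2 * k ≤ n) :
    ((univ.filter (fun M : Mat (Fin (2 * n)) => k ≤ short M)).card : ℝ) ≤
      2 ^ k / (k ! : ℕ) * ((2 * n - 1)‼ : ℕ) := by
  classical
  have h1 : (univ.filter (fun M : Mat (Fin (2 * n)) => k ≤ short M)) ⊆
      (powersetCard k (univ : Finset (Fin (2 * n)))).biUnion startSet := by
    intro M hM
    rw [mem_filter] at hM
    have h2 := hM.2
    unfold short at h2
    obtain ⟨S, hS1, hS2⟩ := exists_subset_card_eq h2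
    rw [mem_biUnion]
    refine ⟨S, by rw [mem_powersetCard]; exact ⟨subset_univ _, hS2⟩, ?_⟩
    unfold startSet
    rw [mem_filter]
    refine ⟨mem_univ _, fun a ha => ?_⟩
    have := hS1 ha
    rw [mem_filter] at this
    exact this.2
  have h2 : ((univ.filter (fun M : Mat (Fin (2 * n)) => k ≤ short M)).card : ℝ) ≤
      ((2 * n).choose k : ℝ) * ((2 * (n - k) - 1)‼ : ℕ) := by
    have h3 : ((univ.filter (fun M : Mat (Fin (2 * n)) => k ≤ short M)).card : ℝ) ≤
        ∑ S ∈ powersetCard k (univ : Finset (Fin (2 * n))), ((startSet S).card : ℝ) := by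
      exact_mod_cast (card_le_card h1).trans card_biUnion_le
    refine h3.trans ?_
    have h4 : ∀ S ∈ powersetCard k (univ : Finset (Fin (2 * n))), ((startSet S).card : ℝ) ≤
        ((2 * (n - k) - 1)‼ : ℕ) := by
      intro S hS
      rw [mem_powersetCard] at hS
      rw [← hS.2]
      exact card_startSet_le S
    refine (sum_le_sum h4).trans ?_
    rw [sum_const, card_powersetCard, Finset.card_univ, Fintype.card_fin, nsmul_eq_mul]
  refine h2.trans ?_
  have h5 : ((2 * n).choose k : ℝ) ≤ (2 * n : ℝ) ^ k / (k ! : ℕ) := by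
    have := Nat.choose_le_pow_div (α := ℝ) k (2 * n)
    push_cast at this ⊢
    exact this
  have h6 : (n : ℝ) ^ k * ((2 * (n - k) - 1)‼ : ℕ) ≤ ((2 * n - 1)‼ : ℕ) := by
    exact_mod_cast df_lower n k hk
  calc ((2 * n).choose k : ℝ) * ((2 * (n - k) - 1)‼ : ℕ)
      ≤ (2 * n : ℝ) ^ k / (k ! : ℕ) * ((2 * (n - k) - 1)‼ : ℕ) :=
        mul_le_mul_of_nonneg_right h5 (Nat.cast_nonneg _)
    _ = 2 ^ k / (k ! : ℕ) * ((n : ℝ) ^ k * ((2 * (n - k) - 1)‼ : ℕ)) := by
        rw [mul_pow]
        ring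
    _ ≤ _ := mul_le_mul_of_nonneg_left h6 (by positivity)

end many

/-! ### There are many crystallized diagrams -/

section cryst

lemma per_lt {n p : ℕ} (_hp : 2 ≤ p) (i : Fin (2 * n / p)) (r : ℕ) (hr : r < p) :
    p * i.val + r < 2 * n := by
  have h1 : p * (i.val + 1) ≤ 2 * n := by
    have h2 : i.val + 1 ≤ 2 * n / p := i.2
    calc p * (i.val + 1) ≤ p * (2 * n / p) := Nat.mul_le_mul_left _ h2
      _ ≤ 2 * n := Nat.mul_div_le _ _
  rw [mul_add, mul_one] at h1
  omega

/-- The periodic short chords: in each of the first `2n/p` blocks of `p` vertices, the last two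
vertices are matched. -/
def per (n p : ℕ) (hp : 2 ≤ p) : Finset (Sym2 (Fin (2 * n))) :=
  (univ : Finset (Fin (2 * n / p))).image (fun i =>
    s(⟨p * i.val + (p - 2), per_lt hp i _ (by omega)⟩, ⟨p * i.val + (p - 1),
      per_lt hp i _ (by omega)⟩))

lemma mem_per {n p : ℕ} {hp : 2 ≤ p} {e : Sym2 (Fin (2 * n))} : e ∈ per n p hp ↔
    ∃ i : Fin (2 * n / p), s(⟨p * i.val + (p - 2), per_lt hp i _ (by omega)⟩, ⟨p * i.val + (p - 1),
      per_lt hp i _ (by omega)⟩) = e := by
  simp [per]

lemma card_per_le (n p : ℕ) (hp : 2 ≤ p) : (per n p hp).card ≤ 2 * n / p := by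
  unfold per
  refine card_image_le.trans ?_
  rw [card_univ, Fintype.card_fin]

lemma per_sub {n p : ℕ} (hp : 2 ≤ p) : per n p hp ⊆ adjs (2 * n) := by
  intro e he
  obtain ⟨i, rfl⟩ := mem_per.1 he
  rw [mk_mem_adjs]
  left
  simp only
  omega

lemma div_block {p i r v : ℕ} (hr : r < p) (h : v = p * i + r) : v / p = i := by
  rw [h, Nat.mul_add_div (by omega), Nat.div_eq_of_lt hr, add_zero]

lemma per_part {n p : ℕ} (hp : 2 ≤ p) : IsPart (per n p hp) := by
  constructor
  · intro e he
    obtain ⟨i, rfl⟩ := mem_per.1 he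
    rw [Sym2.mk_isDiag_iff, Fin.ext_iff]
    simp only
    omega
  · intro e he f hf v hve hvf
    obtain ⟨i, rfl⟩ := mem_per.1 he
    obtain ⟨j, rfl⟩ := mem_per.1 hf
    have h1 : v.val / p = i.val := by
      rw [Sym2.mem_iff] at hve
      rcases hve with rfl | rfl
      · exact div_block (r := p - 2) (by omega) rfl
      · exact div_block (r := p - 1) (by omega) rfl
    have h2 : v.val / p = j.val := by
      rw [Sym2.mem_iff] at hvf
      rcases hvf with rfl | rfl
      · exact div_block (r := p - 2) (by omega) rfl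
      · exact div_block (r := p - 1) (by omega) rfl
    have h3 : i = j := Fin.ext (h1.symm.trans h2)
    rw [h3]

open Classical in
/-- The pairs inside the blocks. -/
noncomputable def blk (n p : ℕ) (hp : 2 ≤ p) : Finset (Sym2 (Fin (2 * n))) :=
  univ.filter (fun e => ∃ u v : Fin (2 * n), u ≠ v ∧ e = s(u, v) ∧ u.val / p = v.val / p ∧
    u ∈ unc (per n p hp) ∧ v ∈ unc (per n p hp))

lemma mem_blk {n p : ℕ} {hp : 2 ≤ p} {e : Sym2 (Fin (2 * n))} : e ∈ blk n p hp ↔
    ∃ u v : Fin (2 * n), u ≠ v ∧ e = s(u, v) ∧ u.val / p = v.val / p ∧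
    u ∈ unc (per n p hp) ∧ v ∈ unc (per n p hp) := by
  simp [blk]

lemma mk_mem_blk {n p : ℕ} {hp : 2 ≤ p} {u v : Fin (2 * n)} : s(u, v) ∈ blk n p hp ↔
    u ≠ v ∧ u.val / p = v.val / p ∧ u ∈ unc (per n p hp) ∧ v ∈ unc (per n p hp) := by
  rw [mem_blk]
  constructor
  · rintro ⟨a, b, h1, h2, h3, h4, h5⟩
    rcases Sym2.eq_iff.1 h2 with ⟨rfl, rfl⟩ | ⟨rfl, rfl⟩
    · exact ⟨h1, h3, h4, h5⟩
    · exact ⟨h1.symm, h3.symm, h5, h4⟩
  · rintro ⟨h1, h3, h4, h5⟩
    exact ⟨u, v, h1, rfl, h3, h4, h5⟩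

lemma block_card {n p : ℕ} (hp : 2 ≤ p) (q : ℕ) :
    (univ.filter (fun u : Fin (2 * n) => u.val / p = q)).card ≤ p := by
  have : (univ.filter (fun u : Fin (2 * n) => u.val / p = q)).card ≤ (range p).card := by
    refine card_le_card_of_injOn (fun u => u.val % p) ?_ ?_
    · intro u _
      rw [mem_coe, mem_range]
      exact Nat.mod_lt _ (by omega)
    · intro u hu v hv h
      rw [mem_coe, mem_filter] at hu hv
      have h1 : u.val % p = v.val % p := h
      have h2 := Nat.div_add_mod u.val p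
      have h3 := Nat.div_add_mod v.val p
      rw [hu.2] at h2
      rw [hv.2] at h3
      exact Fin.ext (by rw [← h2, ← h3, h1])
  rwa [card_range] at this

lemma deg_blk {n p : ℕ} (hp : 2 ≤ p) (v : Fin (2 * n)) :
    ((blk n p hp).filter (fun e => v ∈ e)).card ≤ p := by
  classical
  have h : (blk n p hp).filter (fun e => v ∈ e) ⊆
      (univ.filter (fun u : Fin (2 * n) => u.val / p = v.val / p)).image (fun u => s(v, u)) := by
    intro e he
    rw [mem_filter] at he
    obtain ⟨w, rfl⟩ := Sym2.mem_iff_exists.1 he.2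
    have := mk_mem_blk.1 he.1
    rw [mem_image]
    exact ⟨w, by rw [mem_filter]; exact ⟨mem_univ _, this.2.1.symm⟩, rfl⟩
  exact (card_le_card h).trans (card_image_le.trans (block_card hp _))

lemma card_blk {n p : ℕ} (hp : 2 ≤ p) : (blk n p hp).card ≤ 2 * n * p := by
  classical
  have h : blk n p hp ⊆ (univ : Finset (Fin (2 * n))).biUnion
      (fun v => (blk n p hp).filter (fun e => v ∈ e)) := by
    intro e he
    induction e with
    | _ u v =>
      rw [mem_biUnion]
      exact ⟨u, mem_univ _, by rw [mem_filter]; exact ⟨he, Sym2.mem_mk_left _ _⟩⟩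
  refine (card_le_card h).trans (card_biUnion_le.trans ?_)
  refine (sum_le_sum fun v _ => deg_blk hp v).trans ?_
  rw [sum_const, card_univ, Fintype.card_fin, smul_eq_mul]

lemma per_cryst {n p : ℕ} (hp : 2 ≤ p) {M : Mat (Fin (2 * n))}
    (hM : M ∈ cons (per n p hp) (blk n p hp)) : Crystallized M := by
  rw [mem_cons] at hM
  have hse : ∀ (e : Sym2 (Fin (2 * n))) (v : Fin (2 * n)), e ∈ per n p hp → v ∈ e →
      ShortEnd M v := by
    intro e v he hv
    obtain ⟨w, rfl⟩ := Sym2.mem_iff_exists.1 hv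
    have h1 := hM.1 _ he
    rw [has_mk] at h1
    have h2 := per_sub hp he
    rw [mk_mem_adjs] at h2
    unfold ShortEnd
    rw [h1]
    exact h2
  -- the end of a block is a short end
  have hend : ∀ a b : Fin (2 * n), a.val / p < b.val / p → ∃ z : Fin (2 * n), a ≤ z ∧ z ≤ b ∧
      ShortEnd M z := by
    intro a b hab
    have hb : b.val / p * p ≤ b.val := Nat.div_mul_le_self _ _
    have hb2 := b.2
    have ha : a.val < p * (a.val / p) + p := by
      have h1 := Nat.div_add_mod a.val p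
      have h2 := Nat.mod_lt a.val (show 0 < p by omega)
      omega
    have hab2 : (a.val / p + 1) * p ≤ b.val / p * p := Nat.mul_le_mul_right _ hab
    have hi : a.val / p < 2 * n / p := by
      have : a.val / p + 1 ≤ 2 * n / p := by
        rw [Nat.le_div_iff_mul_le (by omega)]
        omega
      omega
    have hcomm : (a.val / p + 1) * p = p * (a.val / p) + p := by ring
    refine ⟨⟨p * (a.val / p) + (p - 1), by omega⟩, ?_, ?_, ?_⟩
    · rw [Fin.le_def]
      simp only
      omega
    · rw [Fin.le_def]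
      simp only
      omega
    · exact hse _ _ (mem_per.2 ⟨⟨a.val / p, hi⟩, rfl⟩) (Sym2.mem_mk_right _ _)
  intro v hv
  have h1 : ¬ v.val / p < (M.1 v).val / p := by
    intro h
    obtain ⟨z, hz1, hz2, hz3⟩ := hend _ _ h
    exact hv z ((min_le_left _ _).trans hz1) (hz2.trans (le_max_right _ _)) hz3
  have h2 : ¬ (M.1 v).val / p < v.val / p := by
    intro h
    obtain ⟨z, hz1, hz2, hz3⟩ := hend _ _ h
    exact hv z ((min_le_right _ _).trans hz1) (hz2.trans (le_max_left _ _)) hz3
  have h3 : v.val / p = (M.1 v).val / p := by omega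
  have h4 : v ∈ unc (per n p hp) := by
    rw [mem_unc]
    intro e he hve
    exact hv v (min_le_left _ _) (le_max_left _ _) (hse e v he hve)
  have h5 : M.1 v ∈ unc (per n p hp) := by
    rw [mem_unc]
    intro e he hve
    exact hv _ (min_le_right _ _) (le_max_right _ _) (hse e _ he hve)
  exact hM.2 _ (mk_mem_blk.2 ⟨(M.2.2 v).symm, h3, h4, h5⟩) ⟨v, rfl⟩

lemma exp_le_one_sub {x : ℝ} (h0 : 0 ≤ x) (h1 : x ≤ 1 / 2) : Real.exp (-(2 * x)) ≤ 1 - x := by
  have h2 : 0 < 1 + 2 * x := by linarith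
  have h3 := Real.add_one_le_exp (2 * x)
  have h4 : Real.exp (-(2 * x)) ≤ 1 / (1 + 2 * x) := by
    rw [Real.exp_neg, ← one_div]
    apply one_div_le_one_div_of_le h2
    linarith
  refine h4.trans ?_
  rw [div_le_iff₀ h2]
  nlinarith

open Classical in
/-- The crystallized diagrams. -/
noncomputable def crystSet (n : ℕ) : Finset (Mat (Fin (2 * n))) :=
  univ.filter (fun M => Crystallized M)

open Nat in
/-- **Many diagrams are crystallized.** -/
lemma cryst_ge {n p : ℕ} (hp : 8 ≤ p) (hpn : 8 * p ≤ n) :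
    ((2 * n - 1)‼ : ℕ) ≤ Real.exp (8 * p) * (2 * n : ℝ) ^ (2 * n / p) * (crystSet n).card := by
  classical
  have hp2 : 2 ≤ p := by omega
  set Y := per n p hp2 with hY
  have hYc : Y.card ≤ 2 * n / p := card_per_le n p hp2
  have hc4 : 4 * (2 * n / p) ≤ n := by
    have h1 : 2 * n / p ≤ 2 * n / 8 := Nat.div_le_div_left hp (by norm_num)
    omega
  have hunc := card_unc (per_part (n := n) hp2)
  rw [Fintype.card_fin, ← hY] at hunc
  have hn : (0 : ℝ) < n := by
    have : 0 < n := by omega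
    exact_mod_cast this
  have hn64 : (64 : ℝ) ≤ n := by
    have : 64 ≤ n := by omega
    exact_mod_cast this
  have hpn' : (8 : ℝ) * p ≤ n := by exact_mod_cast hpn
  have hx1 : (2 : ℝ) / n ≤ 1 / 2 := by
    rw [div_le_div_iff₀ hn (by norm_num)]
    linarith
  have hge := cnt_ge (Y := Y) (F := blk n p hp2) (d := p) (x := 2 / n) (by
      intro e he
      obtain ⟨u, v, h1, rfl, -, h2, h3⟩ := mem_blk.1 he
      refine ⟨by rwa [Sym2.mk_isDiag_iff], ?_⟩
      intro w hw
      rw [Sym2.mem_iff] at hw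
      rcases hw with rfl | rfl
      · exact h2
      · exact h3) (deg_blk hp2) (by positivity) (by linarith) (by
      have h1 : (n : ℝ) ≤ (unc Y).card - 1 := by
        have : n + 1 ≤ (unc Y).card := by omega
        have : (n : ℝ) + 1 ≤ (unc Y).card := by exact_mod_cast this
        linarith
      have h2 : 1 / 2 ≤ (1 - 2 / (n : ℝ)) ^ (2 * p) := by
        have := one_add_mul_le_pow (a := -(2 / (n : ℝ))) (by linarith) (2 * p)
        have h3 : (1 : ℝ) / 2 ≤ 1 + ((2 * p : ℕ) : ℝ) * -(2 / (n : ℝ)) := by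
          have h4 : ((2 * p : ℕ) : ℝ) * (2 / (n : ℝ)) ≤ 1 / 2 := by
            push_cast
            rw [mul_div_assoc', div_le_div_iff₀ hn (by norm_num)]
            linarith
          linarith
        rw [show (1 : ℝ) - 2 / n = 1 + -(2 / n) by ring]
        exact h3.trans this
      calc (1 : ℝ) = n * (2 / n * (1 / 2)) := by
            field_simp
        _ ≤ ((unc Y).card - 1) * (2 / n * (1 - 2 / (n : ℝ)) ^ (2 * p)) := by
            apply mul_le_mul h1 _ (by positivity) (by linarith)
            exact mul_le_mul_of_nonneg_left h2 (by positivity))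
  have hcr : cnt Y (blk n p hp2) ≤ (crystSet n).card := by
    unfold cnt
    refine Nat.cast_le.2 (card_le_card fun M hM => ?_)
    unfold crystSet
    rw [mem_filter]
    exact ⟨mem_univ _, per_cryst hp2 hM⟩
  have hemp := cnt_empty (per_part (n := n) hp2) (n - Y.card) (by
    rw [← hY]
    omega)
  rw [← hY] at hemp
  have hup : (((2 * n - 1)‼ : ℕ) : ℝ) ≤
      (2 * n : ℝ) ^ (2 * n / p) * ((2 * (n - Y.card) - 1)‼ : ℕ) := by
    have h1 : (((2 * n - 1)‼ : ℕ) : ℝ) ≤
        (2 * n : ℝ) ^ Y.card * ((2 * (n - Y.card) - 1)‼ : ℕ) := by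
      exact_mod_cast df_upper n Y.card (by omega)
    refine h1.trans ?_
    apply mul_le_mul_of_nonneg_right _ (Nat.cast_nonneg _)
    exact pow_le_pow_right₀ (by linarith) hYc
  have hexp : 1 ≤ Real.exp (8 * p) * (1 - 2 / (n : ℝ)) ^ (blk n p hp2).card := by
    have h1 : (1 - 2 / (n : ℝ)) ^ (2 * n * p) ≤ (1 - 2 / (n : ℝ)) ^ (blk n p hp2).card :=
      pow_le_pow_of_le_one (by linarith) (by
        have : (0 : ℝ) ≤ 2 / n := by positivity
        linarith) (card_blk hp2)
    have h2 : Real.exp (-(8 * p)) ≤ (1 - 2 / (n : ℝ)) ^ (2 * n * p) := by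
      have h3 := exp_le_one_sub (x := 2 / (n : ℝ)) (by positivity) hx1
      have h4 := pow_le_pow_left₀ (Real.exp_pos _).le h3 (2 * n * p)
      refine le_trans (le_of_eq ?_) h4
      rw [← Real.exp_nat_mul]
      congr 1
      push_cast
      field_simp
      ring
    calc (1 : ℝ) = Real.exp (8 * p) * Real.exp (-(8 * p)) := by
          rw [← Real.exp_add]
          simp
      _ ≤ _ := mul_le_mul_of_nonneg_left (h2.trans h1) (Real.exp_pos _).le
  calc (((2 * n - 1)‼ : ℕ) : ℝ) ≤ (2 * n : ℝ) ^ (2 * n / p) * cnt Y ∅ := by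
        rw [hemp]
        exact hup
    _ = (2 * n : ℝ) ^ (2 * n / p) * cnt Y ∅ * 1 := (mul_one _).symm
    _ ≤ (2 * n : ℝ) ^ (2 * n / p) * cnt Y ∅ *
        (Real.exp (8 * p) * (1 - 2 / (n : ℝ)) ^ (blk n p hp2).card) := by
        apply mul_le_mul_of_nonneg_left hexp
        have := cnt_nonneg Y ∅
        positivity
    _ = Real.exp (8 * p) * (2 * n : ℝ) ^ (2 * n / p) *
        ((1 - 2 / (n : ℝ)) ^ (blk n p hp2).card * cnt Y ∅) := by ring
    _ ≤ Real.exp (8 * p) * (2 * n : ℝ) ^ (2 * n / p) * (crystSet n).card := by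
        apply mul_le_mul_of_nonneg_left (hge.trans hcr)
        positivity

end cryst

/-! ### The conclusion -/

open Classical in
open Nat in
lemma y_tail {n p k : ℕ} (hp : 8 ≤ p) (hpn : 8 * p ≤ n) (hk : 2 * k ≤ n) :
    (((crystSet n).filter (fun M => k ≤ short M)).card : ℝ) ≤
      2 ^ k / (k ! : ℕ) * (Real.exp (8 * p) * (2 * n : ℝ) ^ (2 * n / p)) * (crystSet n).card := by
  have h1 : (((crystSet n).filter (fun M => k ≤ short M)).card : ℝ) ≤
      ((univ.filter (fun M : Mat (Fin (2 * n)) => k ≤ short M)).card : ℝ) :=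
    Nat.cast_le.2 (card_le_card (filter_subset_filter _ (subset_univ _)))
  have h2 := many_le hk
  have h3 := cryst_ge hp hpn
  calc (((crystSet n).filter (fun M => k ≤ short M)).card : ℝ)
      ≤ 2 ^ k / (k ! : ℕ) * ((2 * n - 1)‼ : ℕ) := h1.trans h2
    _ ≤ 2 ^ k / (k ! : ℕ) * (Real.exp (8 * p) * (2 * n : ℝ) ^ (2 * n / p) *
        (crystSet n).card) := mul_le_mul_of_nonneg_left h3 (by positivity)
    _ = _ := by ring

open Nat in
/-- The asymptotic estimate. -/
lemma ratio_le {n : ℕ} (hL : 51320 ≤ Real.log (Real.sqrt n)) :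
    2 ^ (⌊Real.sqrt n / 20⌋₊ + 1) / ((⌊Real.sqrt n / 20⌋₊ + 1)! : ℕ) *
      (Real.exp (8 * (⌈160 * Real.sqrt n⌉₊ : ℕ)) *
        (2 * n : ℝ) ^ (2 * n / ⌈160 * Real.sqrt n⌉₊)) ≤ Real.exp (8 - Real.sqrt n) := by
  set s := Real.sqrt n with hs
  have hs0 : 0 ≤ s := Real.sqrt_nonneg _
  have hspos : 0 < s := by
    rcases hs0.lt_or_eq with h | h
    · exact h
    · rw [← h, Real.log_zero] at hL
      norm_num at hL
  have hsL : Real.log s ≤ s - 1 := Real.log_le_sub_one_of_pos hspos
  have hs2 : 2 ≤ s := by linarith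
  have hn : (n : ℝ) = s ^ 2 := by
    rw [hs, Real.sq_sqrt (Nat.cast_nonneg _)]
  set k := ⌊s / 20⌋₊ + 1 with hk
  set p := ⌈160 * s⌉₊ with hp
  have hk1 : s / 20 ≤ k := by
    rw [hk]
    push_cast
    exact (Nat.lt_floor_add_one _).le
  have hp1 : 160 * s ≤ p := Nat.le_ceil _
  have hp2 : (p : ℝ) ≤ 160 * s + 1 := (Nat.ceil_lt_add_one (by positivity)).le
  have hppos : (0 : ℝ) < p := by
    have : 0 < 160 * s := by positivity
    linarith
  have h1 : (2 : ℝ) ^ k / (k ! : ℕ) ≤ Real.exp (s - s / 20 * Real.log (s / 2)) := by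
    have h2 := Real.pow_div_factorial_le_exp s hs0 k
    have h3 : (2 : ℝ) ^ k / (k ! : ℕ) = (s / 2) ^ (-(k : ℤ)) * (s ^ k / (k ! : ℕ)) := by
      rw [zpow_neg, zpow_natCast, div_pow]
      field_simp
    rw [h3]
    have h4 : (s / 2) ^ (-(k : ℤ)) ≤ Real.exp (-(s / 20 * Real.log (s / 2))) := by
      have h5 : 0 < s / 2 := by positivity
      have h6 : 0 ≤ Real.log (s / 2) := Real.log_nonneg (by linarith)
      rw [zpow_neg, zpow_natCast, ← Real.exp_log h5, ← Real.exp_nat_mul, ← Real.exp_neg,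
        Real.log_exp]
      apply Real.exp_le_exp.2
      have := mul_le_mul_of_nonneg_right hk1 h6
      linarith
    calc (s / 2) ^ (-(k : ℤ)) * (s ^ k / (k ! : ℕ))
        ≤ Real.exp (-(s / 20 * Real.log (s / 2))) * Real.exp s :=
          mul_le_mul h4 h2 (by positivity) (Real.exp_pos _).le
      _ = _ := by
          rw [← Real.exp_add]
          congr 1
          ring
  have h2 : (2 * n : ℝ) ^ (2 * n / p) ≤ Real.exp (s / 80 * Real.log (2 * s ^ 2)) := by
    have h3 : 0 < 2 * s ^ 2 := by positivity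
    have h4 : 0 ≤ Real.log (2 * s ^ 2) := Real.log_nonneg (by nlinarith)
    have h5 : ((2 * n / p : ℕ) : ℝ) ≤ s / 80 := by
      refine Nat.cast_div_le.trans ?_
      push_cast
      rw [div_le_iff₀ hppos, hn]
      have := mul_le_mul_of_nonneg_left hp1 (show (0 : ℝ) ≤ s / 80 by positivity)
      refine le_trans (le_of_eq ?_) this
      ring
    rw [hn, ← Real.exp_log h3, ← Real.exp_nat_mul, Real.log_exp]
    apply Real.exp_le_exp.2
    exact mul_le_mul_of_nonneg_right h5 h4
  have hl2 : Real.log (s / 2) = Real.log s - Real.log 2 :=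
    Real.log_div hspos.ne' (by norm_num)
  have hl3 : Real.log (2 * s ^ 2) = Real.log 2 + 2 * Real.log s := by
    rw [Real.log_mul (by norm_num) (by positivity), Real.log_pow]
    push_cast
    ring
  have hlog2 : Real.log 2 ≤ 1 := by
    have := Real.log_two_lt_d9
    linarith
  calc (2 : ℝ) ^ k / (k ! : ℕ) * (Real.exp (8 * (p : ℕ)) * (2 * n : ℝ) ^ (2 * n / p))
      ≤ Real.exp (s - s / 20 * Real.log (s / 2)) *
        (Real.exp (8 * (160 * s + 1)) * Real.exp (s / 80 * Real.log (2 * s ^ 2))) := by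
        apply mul_le_mul h1 _ (by positivity) (Real.exp_pos _).le
        apply mul_le_mul _ h2 (by positivity) (Real.exp_pos _).le
        apply Real.exp_le_exp.2
        linarith
    _ = Real.exp (s - s / 20 * Real.log (s / 2) + (8 * (160 * s + 1) +
        s / 80 * Real.log (2 * s ^ 2))) := by
        rw [Real.exp_add, Real.exp_add]
    _ ≤ Real.exp (8 - s) := by
        apply Real.exp_le_exp.2
        rw [hl2, hl3]
        have h6 : s * 51320 ≤ s * Real.log s := mul_le_mul_of_nonneg_left hL hs0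
        have h7 : s * Real.log 2 ≤ s * 1 := mul_le_mul_of_nonneg_left hlog2 hs0
        nlinarith

end Pool.Agent.Helper70K9.Cry
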